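import Pool.Agent.Q8.SM.Main

namespace Q8.SM

lemma zero_of_jets {U : Submodule ℂ VV} (hU : Factoring U) {D : VV} (h : D ∈ perpS U 1)
    (ho : Ord (-2) D) (h2 : cf (-2) D = 0) (h1 : cf (-1) D = 0) : D = 0 := by
  have h3 : Ord (-1) D := by
    have := ho.succ h2
    norm_num at this
    exact this
  have h4 : Ord 0 D := by
    have := h3.succ h1
    norm_num at this
    exact this
  exact perp_taylor hU one_ne_zero h (ord_zero_iff.mp h4)

lemma ord2_br {X Y : VV} {i j : Fin 3} (hX : X - eL i ∈ taylor) (hY : Y - eL j ∈ taylor) :
    Ord (-2) (br X Y) := by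
  have := (lead_ord hX).br (lead_ord hY)
  norm_num at this
  exact this

section
variable {U : Submodule ℂ VV} (hU : Factoring U) {E : Fin 3 → VV} (hE : Gens U E)
include hU hE

/-- the constants in terms of the second coefficients of the `Eᵢ` -/
lemma consts {u v w x y z : ℂ} {B D : Matrix (Fin 3) (Fin 3) ℂ} (hC : Cubic E u v w x y z B D) :
    (E 0 2).coeff 0 + (E 2 0).coeff 0 = u ∧ (E 1 2).coeff 0 + (E 2 1).coeff 0 = v ∧
    (E 0 1).coeff 0 + (E 1 0).coeff 0 = w ∧ 2 * (E 0 0).coeff 0 - 2 * (E 2 2).coeff 0 = x ∧
    2 * (E 1 1).coeff 0 - 2 * (E 0 0).coeff 0 = y ∧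
    2 * (E 2 2).coeff 0 - 2 * (E 1 1).coeff 0 = z := by
  have l0 := hE.lead
  have c1 := congrArg (cf (-2)) hC.r1
  have c2 := congrArg (cf (-2)) hC.r2
  have c3 := congrArg (cf (-2)) hC.r3
  have c4 := congrArg (cf (-2)) hC.s1
  have c5 := congrArg (cf (-2)) hC.s2
  have c6 := congrArg (cf (-2)) hC.s3
  simp only [cf_add, cf_smul, cf_br3 (l0 _) (l0 _) (l0 _), cf_br_lead2 (l0 _) (l0 _),
    lead_cf2 (l0 _), smul_zero, add_zero] at c1 c2 c3 c4 c5 c6
  have e11 := congrFun c1 1
  have e12 := congrFun c1 2
  have e20 := congrFun c2 0
  have e41 := congrFun c4 1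
  have e52 := congrFun c5 2
  have e60 := congrFun c6 0
  simp only [brC, ee, cf, Pi.add_apply, Pi.smul_apply, smul_eq_mul, Matrix.cons_val_zero,
    Matrix.cons_val_one, Matrix.cons_val, Fin.isValue, Fin.reduceEq, if_true, if_false,
    mul_zero, mul_one, zero_mul, one_mul, sub_zero, zero_sub,
    one_ne_zero, zero_ne_one] at e11 e12 e20 e41 e52 e60
  refine ⟨?_, ?_, ?_, ?_, ?_, ?_⟩
  · linear_combination e11
  · linear_combination e20
  · linear_combination -e12
  · linear_combination -e41
  · linear_combination -e52
  · linear_combination -e60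

theorem adm_of_cubic {u v w x y z : ℂ} {B D : Matrix (Fin 3) (Fin 3) ℂ}
    (hC : Cubic E u v w x y z B D) {R : Fin 3 → VV} (hR : ∀ i, R i ∈ perpS U 1)
    (hl : ∀ i, R i - eL i ∈ taylor) : Adm0 E R u v w x y z := by
  have hb : ∀ i j, (R i j).coeff 0 = - (E j i).coeff 0 := transpose hU hE hR hl
  have l0 := hE.lead
  obtain ⟨hu, hv, hw, hx, hy, hz⟩ := consts hU hE hC
  have p : ∀ {X : VV}, X ∈ perpS U 1 → ∀ i, br (E i) X ∈ perpS U 1 :=
    fun hX i => perp_br hU 1 (hE.mem i) hX
  constructor
  · rw [← sub_eq_zero]
    apply zero_of_jets hU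
    · exact Submodule.sub_mem _ (p (hR 0) 0)
        (Submodule.add_mem _ (Submodule.smul_mem _ _ (hR 1)) (Submodule.smul_mem _ _ (hR 2)))
    · exact (ord2_br (l0 0) (hl 0)).sub
        ((((lead_ord (hl 1)).smul _).add ((lead_ord (hl 2)).smul _)).mono (by norm_num))
    · simp only [cf_sub, cf_add, cf_smul, cf_br_lead2 (l0 _) (hl _), lead_cf2 (hl _)]
      funext l; fin_cases l <;> simp [brC, ee]
    · simp only [cf_sub, cf_add, cf_smul, cf_br_lead (l0 _) (hl _), lead_cf (hl _)]
      funext l
      fin_cases l <;> simp [brC, ee, hb]
      all_goals try first | linear_combination hu | linear_combination -hu | linear_combination hv | linear_combination -hv | linear_combination hw | linear_combination -hw | linear_combination hx | linear_combination -hx | linear_combination hy | linear_combination -hy | linear_combination hz | linear_combination -hz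
  · rw [← sub_eq_zero]
    apply zero_of_jets hU
    · exact Submodule.sub_mem _ (p (hR 2) 2)
        (Submodule.add_mem _ (Submodule.smul_mem _ _ (hR 1)) (Submodule.smul_mem _ _ (hR 0)))
    · exact (ord2_br (l0 2) (hl 2)).sub
        ((((lead_ord (hl 1)).smul _).add ((lead_ord (hl 0)).smul _)).mono (by norm_num))
    · simp only [cf_sub, cf_add, cf_smul, cf_br_lead2 (l0 _) (hl _), lead_cf2 (hl _)]
      funext l; fin_cases l <;> simp [brC, ee]
    · simp only [cf_sub, cf_add, cf_smul, cf_br_lead (l0 _) (hl _), lead_cf (hl _)]
      funext l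
      fin_cases l <;> simp [brC, ee, hb]
      all_goals try first | linear_combination hu | linear_combination -hu | linear_combination hv | linear_combination -hv | linear_combination hw | linear_combination -hw | linear_combination hx | linear_combination -hx | linear_combination hy | linear_combination -hy | linear_combination hz | linear_combination -hz
  · rw [← sub_eq_zero]
    apply zero_of_jets hU
    · exact Submodule.sub_mem _ (p (hR 1) 1)
        (Submodule.add_mem _ (Submodule.smul_mem _ _ (hR 2)) (Submodule.smul_mem _ _ (hR 0)))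
    · exact (ord2_br (l0 1) (hl 1)).sub
        ((((lead_ord (hl 2)).smul _).add ((lead_ord (hl 0)).smul _)).mono (by norm_num))
    · simp only [cf_sub, cf_add, cf_smul, cf_br_lead2 (l0 _) (hl _), lead_cf2 (hl _)]
      funext l; fin_cases l <;> simp [brC, ee]
    · simp only [cf_sub, cf_add, cf_smul, cf_br_lead (l0 _) (hl _), lead_cf (hl _)]
      funext l
      fin_cases l <;> simp [brC, ee, hb]
      all_goals try first | linear_combination hu | linear_combination -hu | linear_combination hv | linear_combination -hv | linear_combination hw | linear_combination -hw | linear_combination hx | linear_combination -hx | linear_combination hy | linear_combination -hy | linear_combination hz | linear_combination -hz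
  · rw [← sub_eq_zero]
    apply zero_of_jets hU
    · exact Submodule.sub_mem _ (Submodule.add_mem _ (p (hR 0) 2) (p (hR 2) 0))
        (Submodule.add_mem _ (Submodule.add_mem _ (Submodule.smul_mem _ _ (hR 1)) (Submodule.smul_mem _ _ (hR 2))) (Submodule.smul_mem _ _ (hR 0)))
    · exact ((ord2_br (l0 2) (hl 0)).add (ord2_br (l0 0) (hl 2))).sub
        (((((lead_ord (hl 1)).smul _).add ((lead_ord (hl 2)).smul _)).add ((lead_ord (hl 0)).smul _)).mono (by norm_num))
    · simp only [cf_sub, cf_add, cf_smul, cf_br_lead2 (l0 _) (hl _), lead_cf2 (hl _)]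
      funext l; fin_cases l <;> simp [brC, ee]
    · simp only [cf_sub, cf_add, cf_smul, cf_br_lead (l0 _) (hl _), lead_cf (hl _)]
      funext l
      fin_cases l <;> simp [brC, ee, hb]
      all_goals try first | linear_combination hu | linear_combination -hu | linear_combination hv | linear_combination -hv | linear_combination hw | linear_combination -hw | linear_combination hx | linear_combination -hx | linear_combination hy | linear_combination -hy | linear_combination hz | linear_combination -hz
  · rw [← sub_eq_zero]
    apply zero_of_jets hU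
    · exact Submodule.sub_mem _ (Submodule.add_mem _ (p (hR 1) 0) (p (hR 0) 1))
        (Submodule.add_mem _ (Submodule.add_mem _ (Submodule.smul_mem _ _ (hR 1)) (Submodule.smul_mem _ _ (hR 2))) (Submodule.smul_mem _ _ (hR 0)))
    · exact ((ord2_br (l0 0) (hl 1)).add (ord2_br (l0 1) (hl 0))).sub
        (((((lead_ord (hl 1)).smul _).add ((lead_ord (hl 2)).smul _)).add ((lead_ord (hl 0)).smul _)).mono (by norm_num))
    · simp only [cf_sub, cf_add, cf_smul, cf_br_lead2 (l0 _) (hl _), lead_cf2 (hl _)]
      funext l; fin_cases l <;> simp [brC, ee]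
    · simp only [cf_sub, cf_add, cf_smul, cf_br_lead (l0 _) (hl _), lead_cf (hl _)]
      funext l
      fin_cases l <;> simp [brC, ee, hb]
      all_goals try first | linear_combination hu | linear_combination -hu | linear_combination hv | linear_combination -hv | linear_combination hw | linear_combination -hw | linear_combination hx | linear_combination -hx | linear_combination hy | linear_combination -hy | linear_combination hz | linear_combination -hz
  · rw [← sub_eq_zero]
    apply zero_of_jets hU
    · exact Submodule.sub_mem _ (Submodule.add_mem _ (p (hR 2) 1) (p (hR 1) 2))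
        (Submodule.add_mem _ (Submodule.add_mem _ (Submodule.smul_mem _ _ (hR 1)) (Submodule.smul_mem _ _ (hR 2))) (Submodule.smul_mem _ _ (hR 0)))
    · exact ((ord2_br (l0 1) (hl 2)).add (ord2_br (l0 2) (hl 1))).sub
        (((((lead_ord (hl 1)).smul _).add ((lead_ord (hl 2)).smul _)).add ((lead_ord (hl 0)).smul _)).mono (by norm_num))
    · simp only [cf_sub, cf_add, cf_smul, cf_br_lead2 (l0 _) (hl _), lead_cf2 (hl _)]
      funext l; fin_cases l <;> simp [brC, ee]
    · simp only [cf_sub, cf_add, cf_smul, cf_br_lead (l0 _) (hl _), lead_cf (hl _)]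
      funext l
      fin_cases l <;> simp [brC, ee, hb]
      all_goals try first | linear_combination hu | linear_combination -hu | linear_combination hv | linear_combination -hv | linear_combination hw | linear_combination -hw | linear_combination hx | linear_combination -hx | linear_combination hy | linear_combination -hy | linear_combination hz | linear_combination -hz

end

end Q8.SM
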