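import Mathlib

namespace Q8.SM

/-- `ℂ((λ))` -/
abbrev KK := LaurentSeries ℂ

/-- `so₃((λ))` in the coordinates with respect to `e₁, e₂, e₃` (indices `0, 1, 2`). -/
abbrev VV := Fin 3 → KK

/-- the skew-symmetric matrix `x₁e₁ + x₂e₂ + x₃e₃` -/
def mat (X : VV) : Matrix (Fin 3) (Fin 3) KK :=
  !![0, X 0, X 1; -X 0, 0, X 2; -X 1, -X 2, 0]

/-- the commutator in coordinates -/
noncomputable def br (X Y : VV) : VV :=
  ![X 2 * Y 1 - X 1 * Y 2, X 0 * Y 2 - X 2 * Y 0, X 1 * Y 0 - X 0 * Y 1]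

lemma mat_br (X Y : VV) : mat (br X Y) = mat X * mat Y - mat Y * mat X := by
  apply Matrix.ext
  intro i j
  fin_cases i <;> fin_cases j <;> simp [mat, br, Matrix.mul_apply, Fin.sum_univ_three] <;> ring

/-- `(X, Y) = ∑ xᵢ yᵢ` -/
noncomputable def dot (X Y : VV) : KK := X 0 * Y 0 + X 1 * Y 1 + X 2 * Y 2

/-- no negative powers of `λ` -/
def IsTaylor (f : KK) : Prop := ∀ k : ℤ, k < 0 → f.coeff k = 0

/-- `so₃[[λ]]` -/
def taylor : Submodule ℂ VV where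
  carrier := {X | ∀ i, IsTaylor (X i)}
  zero_mem' := fun i k _ => by simp
  add_mem' := fun {X Y} hX hY i k hk => by
    show (X i + Y i).coeff k = 0
    rw [HahnSeries.coeff_add, hX i k hk, hY i k hk, add_zero]
  smul_mem' := fun c X hX i k hk => by
    show (c • X i).coeff k = 0
    rw [HahnSeries.coeff_smul, hX i k hk, smul_zero]

/-- `eᵢ / λ` -/
noncomputable def eL (i : Fin 3) : VV := fun j => if j = i then HahnSeries.single (-1) 1 else 0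

/-- factoring subalgebras -/
structure Factoring (U : Submodule ℂ VV) : Prop where
  br_mem : ∀ X ∈ U, ∀ Y ∈ U, br X Y ∈ U
  compl : IsCompl taylor U

/-- `Eᵢ ∈ U`, `Eᵢ = eᵢ/λ + O(1)`. -/
structure Gens (U : Submodule ℂ VV) (E : Fin 3 → VV) : Prop where
  mem : ∀ i, E i ∈ U
  lead : ∀ i, E i - eL i ∈ taylor

/-- the cubic relations which define `A` and `C` (with arbitrary `B`, `D`) -/
structure Cubic (E : Fin 3 → VV) (u v w x y z : ℂ) (B D : Matrix (Fin 3) (Fin 3) ℂ) : Prop where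
  r1 : br (E 0) (br (E 1) (E 2)) = (-u) • br (E 2) (E 0) + w • br (E 0) (E 1)
    + (B 0 0 • E 1 + B 0 1 • E 2 + B 0 2 • E 0)
  r2 : br (E 2) (br (E 0) (E 1)) = u • br (E 2) (E 0) + (-v) • br (E 1) (E 2)
    + (B 1 0 • E 1 + B 1 1 • E 2 + B 1 2 • E 0)
  r3 : br (E 1) (br (E 2) (E 0)) = (-w) • br (E 0) (E 1) + v • br (E 1) (E 2)
    + (B 2 0 • E 1 + B 2 1 • E 2 + B 2 2 • E 0)
  s1 : br (E 2) (br (E 1) (E 2)) + br (E 0) (br (E 0) (E 1)) =
    x • br (E 2) (E 0) + v • br (E 0) (E 1) + (-w) • br (E 1) (E 2)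
    + (D 0 0 • E 1 + D 0 1 • E 2 + D 0 2 • E 0)
  s2 : br (E 0) (br (E 2) (E 0)) + br (E 1) (br (E 1) (E 2)) =
    (-v) • br (E 2) (E 0) + y • br (E 0) (E 1) + u • br (E 1) (E 2)
    + (D 1 0 • E 1 + D 1 1 • E 2 + D 1 2 • E 0)
  s3 : br (E 1) (br (E 0) (E 1)) + br (E 2) (br (E 2) (E 0)) =
    w • br (E 2) (E 0) + (-u) • br (E 0) (E 1) + z • br (E 1) (E 2)
    + (D 2 0 • E 1 + D 2 1 • E 2 + D 2 2 • E 0)

/-- the relations satisfied by admissible triples -/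
structure Adm0 (E R : Fin 3 → VV) (u v w x y z : ℂ) : Prop where
  r1 : br (E 0) (R 0) = (-u) • R 1 + w • R 2
  r2 : br (E 2) (R 2) = u • R 1 + (-v) • R 0
  r3 : br (E 1) (R 1) = (-w) • R 2 + v • R 0
  s1 : br (E 2) (R 0) + br (E 0) (R 2) = x • R 1 + v • R 2 + (-w) • R 0
  s2 : br (E 0) (R 1) + br (E 1) (R 0) = (-v) • R 1 + y • R 2 + u • R 0
  s3 : br (E 1) (R 2) + br (E 2) (R 1) = w • R 1 + (-u) • R 2 + z • R 0

/-- admissible triples -/
def Admissible (E R : Fin 3 → VV) (u v w x y z : ℂ) : Prop :=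
  (∀ i, R i - eL i ∈ taylor) ∧ Adm0 E R u v w x y z

/-- `⟨X, Y⟩_P = res P (X, Y)` -/
noncomputable def pair (P : PowerSeries ℂ) (X Y : VV) : ℂ :=
  ((P : KK) * dot X Y).coeff (-1)

/-- `U^{⊥_P}` -/
def perp (U : Submodule ℂ VV) (P : PowerSeries ℂ) : Set VV := {X | ∀ Y ∈ U, pair P X Y = 0}

/-- the `U`-module generated by a triple -/
def gen (U : Submodule ℂ VV) (R : Fin 3 → VV) : Set VV :=
  {X | ∀ M : Submodule ℂ VV, (∀ i, R i ∈ M) → (∀ Y ∈ U, ∀ Z ∈ M, br Y Z ∈ M) → X ∈ M}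

end Q8.SM
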