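import Pool.Agent.Q8.SM.Jet

namespace Q8.SM

lemma ps_taylor (P : PowerSeries ℂ) : IsTaylor (P : KK) := by
  intro k hk
  rw [PowerSeries.coeff_coe, if_pos hk]

lemma ps_coeff (P : PowerSeries ℂ) (n : ℕ) : (P : KK).coeff (n : ℤ) = PowerSeries.coeff n P := by
  rw [PowerSeries.coeff_coe, if_neg (by omega)]
  simp

lemma exists_ps {f : KK} (hf : IsTaylor f) : ∃ P : PowerSeries ℂ, (P : KK) = f := by
  refine ⟨PowerSeries.mk (fun n => f.coeff n), ?_⟩
  ext k
  rw [PowerSeries.coeff_coe]
  split_ifs with h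
  · exact (hf k h).symm
  · rw [PowerSeries.coeff_mk]
    congr 1
    omega

lemma IsTaylor.mul {f g : KK} (hf : IsTaylor f) (hg : IsTaylor g) : IsTaylor (f * g) := by
  intro k hk
  exact coeff_mul_lt hf hg (by omega)

lemma IsTaylor.add {f g : KK} (hf : IsTaylor f) (hg : IsTaylor g) : IsTaylor (f + g) := by
  intro k hk
  rw [HahnSeries.coeff_add, hf k hk, hg k hk, add_zero]

lemma smul_C (c : ℂ) (f : KK) : c • f = HahnSeries.C c * f := by
  ext k
  simp

lemma neg_one_smul' (X : VV) : (-1 : ℂ) • X = -X := by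
  funext i
  show (-1 : ℂ) • X i = - X i
  rw [smul_C, map_neg, map_one]
  ring

lemma pair_add_right (P : PowerSeries ℂ) (X Y Z : VV) :
    pair P X (Y + Z) = pair P X Y + pair P X Z := by
  unfold pair
  rw [← HahnSeries.coeff_add]
  congr 1
  simp only [dot, Pi.add_apply]
  ring

lemma pair_smul_right (P : PowerSeries ℂ) (X Y : VV) (c : ℂ) :
    pair P X (c • Y) = c * pair P X Y := by
  unfold pair
  rw [← smul_eq_mul (a := c), ← HahnSeries.coeff_smul]
  congr 1
  simp only [dot, Pi.smul_apply, smul_C]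
  ring

lemma pair_add_left (P : PowerSeries ℂ) (X Y Z : VV) :
    pair P (X + Y) Z = pair P X Z + pair P Y Z := by
  unfold pair
  rw [← HahnSeries.coeff_add]
  congr 1
  simp only [dot, Pi.add_apply]
  ring

lemma pair_smul_left (P : PowerSeries ℂ) (X Y : VV) (c : ℂ) :
    pair P (c • X) Y = c * pair P X Y := by
  unfold pair
  rw [← smul_eq_mul (a := c), ← HahnSeries.coeff_smul]
  congr 1
  simp only [dot, Pi.smul_apply, smul_C]
  ring

lemma pair_zero_left (P : PowerSeries ℂ) (Y : VV) : pair P 0 Y = 0 := by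
  have := pair_smul_left P 0 Y 0
  simpa using this

lemma pair_sub_left (P : PowerSeries ℂ) (X Y Z : VV) :
    pair P (X - Y) Z = pair P X Z - pair P Y Z := by
  have h : X - Y = X + (-1 : ℂ) • Y := by rw [neg_one_smul', sub_eq_add_neg]
  rw [h, pair_add_left, pair_smul_left]
  ring

lemma pair_taylor (P : PowerSeries ℂ) {X Y : VV} (hX : X ∈ taylor) (hY : Y ∈ taylor) :
    pair P X Y = 0 := by
  unfold pair
  refine IsTaylor.mul (ps_taylor P) ?_ _ (by norm_num)
  exact IsTaylor.add (IsTaylor.add (IsTaylor.mul (hX 0) (hY 0)) (IsTaylor.mul (hX 1) (hY 1)))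
    (IsTaylor.mul (hX 2) (hY 2))

/-- invariance of the form -/
lemma pair_br (P : PowerSeries ℂ) (X Y Z : VV) : pair P (br Y X) Z = - pair P X (br Y Z) := by
  unfold pair
  rw [← HahnSeries.coeff_neg]
  congr 1
  simp only [dot, br, Matrix.cons_val_zero, Matrix.cons_val_one, Matrix.cons_val]
  ring

/-- `U^{⊥_P}` as a subspace -/
def perpS (U : Submodule ℂ VV) (P : PowerSeries ℂ) : Submodule ℂ VV where
  carrier := perp U P
  zero_mem' := fun Y _ => pair_zero_left P Y
  add_mem' := fun {X Y} hX hY Z hZ => by rw [pair_add_left, hX Z hZ, hY Z hZ, add_zero]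
  smul_mem' := fun c X hX Z hZ => by rw [pair_smul_left, hX Z hZ, mul_zero]

lemma mem_perpS {U : Submodule ℂ VV} {P : PowerSeries ℂ} {X : VV} :
    X ∈ perpS U P ↔ ∀ Y ∈ U, pair P X Y = 0 := Iff.rfl

section
variable {U : Submodule ℂ VV} (hU : Factoring U)
include hU

lemma perp_br (P : PowerSeries ℂ) {X Y : VV} (hY : Y ∈ U) (hX : X ∈ perpS U P) :
    br Y X ∈ perpS U P := by
  intro Z hZ
  rw [pair_br, hX _ (hU.br_mem Y hY Z hZ), neg_zero]

lemma exists_mem (X : VV) : ∃ Y ∈ U, Y - X ∈ taylor := by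
  have h : X ∈ taylor ⊔ U := by rw [hU.compl.sup_eq_top]; trivial
  obtain ⟨t, ht, Y, hY, h1⟩ := Submodule.mem_sup.mp h
  refine ⟨Y, hY, ?_⟩
  have : Y - X = -t := by rw [← h1]; abel
  rw [this]
  exact taylor.neg_mem ht

lemma eq_zero_of_taylor {X : VV} (h1 : X ∈ U) (h2 : X ∈ taylor) : X = 0 := by
  have := hU.compl.inf_eq_bot
  have h3 : X ∈ taylor ⊓ U := ⟨h2, h1⟩
  rw [this] at h3
  exact h3

/-- the form is nondegenerate modulo `U` -/
lemma perp_taylor {P : PowerSeries ℂ} (hP : P ≠ 0) {X : VV} (h1 : X ∈ perpS U P)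
    (h2 : X ∈ taylor) : X = 0 := by
  have h3 : ∀ Y : VV, pair P X Y = 0 := by
    intro Y
    obtain ⟨Z, hZ, hZY⟩ := exists_mem hU Y
    have e : Y = Z + (-1 : ℂ) • (Z - Y) := by rw [neg_one_smul']; abel
    rw [e, pair_add_right, pair_smul_right, h1 Z hZ, pair_taylor P h2 hZY]
    ring
  have hP' : (P : KK) ≠ 0 := by
    intro h
    apply hP
    exact HahnSeries.ofPowerSeries_injective (by rw [h]; exact (map_zero _).symm)
  have h4 : ∀ j, (P : KK) * X j = 0 := by
    intro j
    ext k
    have h5 := h3 (fun i => if i = j then HahnSeries.single (-1 - k) 1 else 0)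
    have h6 : dot X (fun i => if i = j then HahnSeries.single (-1 - k) 1 else 0)
        = X j * HahnSeries.single (-1 - k) 1 := by
      unfold dot
      fin_cases j <;> simp
    unfold pair at h5
    rw [h6, ← mul_assoc, mul_comm, single_mul_coeff, one_mul] at h5
    rw [show (-1 : ℤ) - (-1 - k) = k by ring] at h5
    rw [h5]
    simp
  funext j
  rcases mul_eq_zero.mp (h4 j) with h | h
  · exact absurd h hP'
  · exact h

/-- the elements `R_i^0` of `U^{⊥}` -/
lemma exists_R (i : Fin 3) : ∃ R : VV, R ∈ perpS U 1 ∧ R - eL i ∈ taylor := by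
  have hex : ∀ (k : ℕ) (j : Fin 3), ∃ Y ∈ U,
      Y - (fun l => if l = j then HahnSeries.single (-(k : ℤ) - 1) (1 : ℂ) else 0) ∈ taylor :=
    fun k j => exists_mem hU _
  choose Y hYU hYt using hex
  set t : VV := fun j => ((PowerSeries.mk (fun k => -(Y k j i).coeff 0) : PowerSeries ℂ) : KK)
    with ht
  have htt : t ∈ taylor := fun j => ps_taylor _
  have h1 : ∀ Z : VV, pair 1 (eL i) Z = (Z i).coeff 0 := by
    intro Z
    unfold pair
    rw [PowerSeries.coe_one, one_mul]
    have : dot (eL i) Z = HahnSeries.single (-1) 1 * Z i := by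
      unfold dot eL
      fin_cases i <;> simp
    rw [this, single_mul_coeff, one_mul]
    norm_num
  have h2 : ∀ (k : ℕ) (j : Fin 3), pair 1 t (Y k j) = -(Y k j i).coeff 0 := by
    intro k j
    have e : Y k j = (fun l => if l = j then HahnSeries.single (-(k : ℤ) - 1) (1 : ℂ) else 0)
        + (Y k j - fun l => if l = j then HahnSeries.single (-(k : ℤ) - 1) (1 : ℂ) else 0) := by
      abel
    rw [e, pair_add_right, pair_taylor 1 htt (hYt k j), add_zero, ← e]
    unfold pair
    rw [PowerSeries.coe_one, one_mul]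
    have : dot t (fun l => if l = j then HahnSeries.single (-(k : ℤ) - 1) (1 : ℂ) else 0)
        = HahnSeries.single (-(k : ℤ) - 1) 1 * t j := by
      unfold dot
      fin_cases j <;> simp [mul_comm]
    rw [this, single_mul_coeff, one_mul, show (-1 : ℤ) - (-(k : ℤ) - 1) = (k : ℤ) by ring, ht]
    simp only
    rw [ps_coeff, PowerSeries.coeff_mk]
  refine ⟨eL i + t, ?_, by rw [add_sub_cancel_left]; exact htt⟩
  have h3 : ∀ (k : ℕ) (j : Fin 3), pair 1 (eL i + t) (Y k j) = 0 := by
    intro k j
    rw [pair_add_left, h1, h2]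
    ring
  have key : ∀ N : ℕ, ∀ Z ∈ U, Ord (-(N : ℤ)) Z → pair 1 (eL i + t) Z = 0 := by
    intro N
    induction N with
    | zero =>
      intro Z hZ ho
      have : Z = 0 := eq_zero_of_taylor hU hZ (ord_zero_iff.mp (by simpa using ho))
      rw [this]
      have := pair_smul_right 1 (eL i + t) 0 0
      simpa using this
    | succ N ih =>
      intro Z hZ ho
      set W : VV := (Z 0).coeff (-(N : ℤ) - 1) • Y N 0 + (Z 1).coeff (-(N : ℤ) - 1) • Y N 1
        + (Z 2).coeff (-(N : ℤ) - 1) • Y N 2 with hW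
      have hWU : W ∈ U := U.add_mem (U.add_mem (U.smul_mem _ (hYU _ _)) (U.smul_mem _ (hYU _ _)))
        (U.smul_mem _ (hYU _ _))
      have hWp : pair 1 (eL i + t) W = 0 := by
        rw [hW, pair_add_right, pair_add_right, pair_smul_right, pair_smul_right,
          pair_smul_right, h3, h3, h3]
        ring
      have hcf : ∀ k < (0 : ℤ), cf k W = if k = -(N : ℤ) - 1 then cf (-(N : ℤ) - 1) Z else 0 := by
        intro k hk
        have hY : ∀ j, cf k (Y N j) = if k = -(N : ℤ) - 1 then ee j else 0 := by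
          intro j
          have h5 := (ord_zero_iff.mpr (hYt N j)) k hk
          rw [cf_sub, sub_eq_zero] at h5
          rw [h5]
          funext l
          simp only [cf]
          by_cases hl : l = j
          · by_cases hk' : k = -(N : ℤ) - 1
            · simp [hl, hk', ee]
            · rw [if_pos hl, if_neg hk', HahnSeries.coeff_single_of_ne hk']
              rfl
          · rw [if_neg hl]
            split_ifs <;> simp [ee, hl]
        rw [hW, cf_add, cf_add, cf_smul, cf_smul, cf_smul, hY, hY, hY]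
        split_ifs with hk'
        · funext l
          fin_cases l <;> simp [ee, cf]
        · simp
      have h6 : Ord (-(N : ℤ)) (Z - W) := by
        intro k hk
        rw [cf_sub, hcf k (by omega)]
        split_ifs with hk'
        · rw [hk', sub_self]
        · rw [sub_zero]
          exact ho k (by push_cast; omega)
      have h7 := ih (Z - W) (U.sub_mem hZ hWU) h6
      have e : Z = (Z - W) + W := by abel
      rw [e, pair_add_right, h7, hWp, add_zero]
  intro Z hZ
  obtain ⟨N, hN⟩ : ∃ N : ℕ, Ord (-(N : ℤ)) Z := by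
    have : ∀ j, ∃ N : ℕ, ∀ k < -(N : ℤ), (Z j).coeff k = 0 := by
      intro j
      refine ⟨(-(Z j).order).toNat, fun k hk => ?_⟩
      apply HahnSeries.coeff_eq_zero_of_lt_order
      omega
    choose f hf using this
    refine ⟨f 0 + f 1 + f 2, ?_⟩
    intro k hk
    funext j
    fin_cases j
    · exact hf 0 k (by push_cast at hk; omega)
    · exact hf 1 k (by push_cast at hk; omega)
    · exact hf 2 k (by push_cast at hk; omega)
  exact key N Z hZ hN

end

end Q8.SM
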