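import Pool.Agent.Q8.SM.Uniq

namespace Q8.SM

lemma ord3_br {X Y Z : VV} {i j k : Fin 3} (hX : X - eL i ∈ taylor) (hY : Y - eL j ∈ taylor)
    (hZ : Z - eL k ∈ taylor) : Ord (-3) (br X (br Y Z)) := by
  have := (lead_ord hX).br (ord2_br hY hZ)
  norm_num at this
  exact this

lemma cf_br33 {X Y Z : VV} {i j k : Fin 3} (hX : X - eL i ∈ taylor) (hY : Y - eL j ∈ taylor)
    (hZ : Z - eL k ∈ taylor) : cf (-3) (br X (br Y Z)) = brC (ee i) (brC (ee j) (ee k)) := by
  have := cf_br (lead_ord hX) (ord2_br hY hZ)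
  norm_num at this
  rw [this, lead_cf hX, cf_br_lead2 hY hZ]

section
variable {U : Submodule ℂ VV} (hU : Factoring U) {E : Fin 3 → VV} (hE : Gens U E)
include hU hE

lemma expand_of_jets {F : VV} (hF : F ∈ U) (ho : Ord (-3) F) (h3 : cf (-3) F = 0)
    (h2 : cf (-2) F = 0) : ∃ b : Fin 3 → ℂ, F = b 0 • E 1 + b 1 • E 2 + b 2 • E 0 := by
  have o2 : Ord (-2) F := by
    have := ho.succ h3
    norm_num at this
    exact this
  have o1 : Ord (-1) F := by
    have := o2.succ h2
    norm_num at this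
    exact this
  refine ⟨![cf (-1) F 1, cf (-1) F 2, cf (-1) F 0], ?_⟩
  rw [← sub_eq_zero]
  apply eq_zero_of_taylor hU
  · exact U.sub_mem hF (U.add_mem (U.add_mem (U.smul_mem _ (hE.mem 1)) (U.smul_mem _ (hE.mem 2)))
      (U.smul_mem _ (hE.mem 0)))
  · rw [← ord_zero_iff]
    have o3 : Ord (-1) (F - (![cf (-1) F 1, cf (-1) F 2, cf (-1) F 0] 0 • E 1
        + ![cf (-1) F 1, cf (-1) F 2, cf (-1) F 0] 1 • E 2
        + ![cf (-1) F 1, cf (-1) F 2, cf (-1) F 0] 2 • E 0)) :=
      o1.sub ((((lead_ord (hE.lead 1)).smul _).add ((lead_ord (hE.lead 2)).smul _)).add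
        ((lead_ord (hE.lead 0)).smul _))
    have := o3.succ (by
      simp only [cf_sub, cf_add, cf_smul, lead_cf (hE.lead _)]
      funext l
      fin_cases l <;> simp [ee])
    norm_num at this
    exact this

theorem exists_cubic : ∃ (u v w x y z : ℂ) (B D : Matrix (Fin 3) (Fin 3) ℂ),
    Cubic E u v w x y z B D := by
  have l0 := hE.lead
  have m : ∀ i, E i ∈ U := hE.mem
  have mb : ∀ {X Y : VV}, X ∈ U → Y ∈ U → br X Y ∈ U := fun hX hY => hU.br_mem _ hX _ hY
  obtain ⟨u, hu⟩ : ∃ u : ℂ, u = ((E 0 2).coeff 0 + (E 2 0).coeff 0) := ⟨_, rfl⟩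
  obtain ⟨v, hv⟩ : ∃ v : ℂ, v = ((E 1 2).coeff 0 + (E 2 1).coeff 0) := ⟨_, rfl⟩
  obtain ⟨w, hw⟩ : ∃ w : ℂ, w = ((E 0 1).coeff 0 + (E 1 0).coeff 0) := ⟨_, rfl⟩
  obtain ⟨x, hx⟩ : ∃ x : ℂ, x = (2 * (E 0 0).coeff 0 - 2 * (E 2 2).coeff 0) := ⟨_, rfl⟩
  obtain ⟨y, hy⟩ : ∃ y : ℂ, y = (2 * (E 1 1).coeff 0 - 2 * (E 0 0).coeff 0) := ⟨_, rfl⟩
  obtain ⟨z, hz⟩ : ∃ z : ℂ, z = (2 * (E 2 2).coeff 0 - 2 * (E 1 1).coeff 0) := ⟨_, rfl⟩
  obtain ⟨b0, hb0⟩ : ∃ b : Fin 3 → ℂ, (br (E 0) (br (E 1) (E 2))) - ((-u) • br (E 2) (E 0) + w • br (E 0) (E 1))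
      = b 0 • E 1 + b 1 • E 2 + b 2 • E 0 := by
    apply expand_of_jets hU hE
    · exact U.sub_mem (mb (m 0) (mb (m 1) (m 2)))
        (U.add_mem (U.smul_mem _ (mb (m 2) (m 0))) (U.smul_mem _ (mb (m 0) (m 1))))
    · exact (ord3_br (l0 0) (l0 1) (l0 2)).sub
        ((((ord2_br (l0 2) (l0 0)).smul _).add ((ord2_br (l0 0) (l0 1)).smul _)).mono (by norm_num))
    · simp only [cf_sub, cf_add, cf_smul, cf_br33 (l0 _) (l0 _) (l0 _)]
      simp only [ord2_br (l0 _) (l0 _) (-3) (by norm_num), smul_zero, add_zero, sub_zero]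
      funext l
      fin_cases l <;> simp [brC, ee]
    · simp only [cf_sub, cf_add, cf_smul, cf_br3 (l0 _) (l0 _) (l0 _), cf_br_lead2 (l0 _) (l0 _)]
      funext l
      fin_cases l <;> simp [brC, ee]
      all_goals try first | linear_combination hu | linear_combination -hu | linear_combination hv | linear_combination -hv | linear_combination hw | linear_combination -hw | linear_combination hx | linear_combination -hx | linear_combination hy | linear_combination -hy | linear_combination hz | linear_combination -hz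
  obtain ⟨b1, hb1⟩ : ∃ b : Fin 3 → ℂ, (br (E 2) (br (E 0) (E 1))) - (u • br (E 2) (E 0) + (-v) • br (E 1) (E 2))
      = b 0 • E 1 + b 1 • E 2 + b 2 • E 0 := by
    apply expand_of_jets hU hE
    · exact U.sub_mem (mb (m 2) (mb (m 0) (m 1)))
        (U.add_mem (U.smul_mem _ (mb (m 2) (m 0))) (U.smul_mem _ (mb (m 1) (m 2))))
    · exact (ord3_br (l0 2) (l0 0) (l0 1)).sub
        ((((ord2_br (l0 2) (l0 0)).smul _).add ((ord2_br (l0 1) (l0 2)).smul _)).mono (by norm_num))
    · simp only [cf_sub, cf_add, cf_smul, cf_br33 (l0 _) (l0 _) (l0 _)]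
      simp only [ord2_br (l0 _) (l0 _) (-3) (by norm_num), smul_zero, add_zero, sub_zero]
      funext l
      fin_cases l <;> simp [brC, ee]
    · simp only [cf_sub, cf_add, cf_smul, cf_br3 (l0 _) (l0 _) (l0 _), cf_br_lead2 (l0 _) (l0 _)]
      funext l
      fin_cases l <;> simp [brC, ee]
      all_goals try first | linear_combination hu | linear_combination -hu | linear_combination hv | linear_combination -hv | linear_combination hw | linear_combination -hw | linear_combination hx | linear_combination -hx | linear_combination hy | linear_combination -hy | linear_combination hz | linear_combination -hz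
  obtain ⟨b2, hb2⟩ : ∃ b : Fin 3 → ℂ, (br (E 1) (br (E 2) (E 0))) - ((-w) • br (E 0) (E 1) + v • br (E 1) (E 2))
      = b 0 • E 1 + b 1 • E 2 + b 2 • E 0 := by
    apply expand_of_jets hU hE
    · exact U.sub_mem (mb (m 1) (mb (m 2) (m 0)))
        (U.add_mem (U.smul_mem _ (mb (m 0) (m 1))) (U.smul_mem _ (mb (m 1) (m 2))))
    · exact (ord3_br (l0 1) (l0 2) (l0 0)).sub
        ((((ord2_br (l0 0) (l0 1)).smul _).add ((ord2_br (l0 1) (l0 2)).smul _)).mono (by norm_num))
    · simp only [cf_sub, cf_add, cf_smul, cf_br33 (l0 _) (l0 _) (l0 _)]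
      simp only [ord2_br (l0 _) (l0 _) (-3) (by norm_num), smul_zero, add_zero, sub_zero]
      funext l
      fin_cases l <;> simp [brC, ee]
    · simp only [cf_sub, cf_add, cf_smul, cf_br3 (l0 _) (l0 _) (l0 _), cf_br_lead2 (l0 _) (l0 _)]
      funext l
      fin_cases l <;> simp [brC, ee]
      all_goals try first | linear_combination hu | linear_combination -hu | linear_combination hv | linear_combination -hv | linear_combination hw | linear_combination -hw | linear_combination hx | linear_combination -hx | linear_combination hy | linear_combination -hy | linear_combination hz | linear_combination -hz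
  obtain ⟨b3, hb3⟩ : ∃ b : Fin 3 → ℂ, (br (E 2) (br (E 1) (E 2)) + br (E 0) (br (E 0) (E 1))) - (x • br (E 2) (E 0) + v • br (E 0) (E 1) + (-w) • br (E 1) (E 2))
      = b 0 • E 1 + b 1 • E 2 + b 2 • E 0 := by
    apply expand_of_jets hU hE
    · exact U.sub_mem (U.add_mem (mb (m 2) (mb (m 1) (m 2))) (mb (m 0) (mb (m 0) (m 1))))
        (U.add_mem (U.add_mem (U.smul_mem _ (mb (m 2) (m 0))) (U.smul_mem _ (mb (m 0) (m 1)))) (U.smul_mem _ (mb (m 1) (m 2))))
    · exact ((ord3_br (l0 2) (l0 1) (l0 2)).add (ord3_br (l0 0) (l0 0) (l0 1))).sub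
        (((((ord2_br (l0 2) (l0 0)).smul _).add ((ord2_br (l0 0) (l0 1)).smul _)).add ((ord2_br (l0 1) (l0 2)).smul _)).mono (by norm_num))
    · simp only [cf_sub, cf_add, cf_smul, cf_br33 (l0 _) (l0 _) (l0 _)]
      simp only [ord2_br (l0 _) (l0 _) (-3) (by norm_num), smul_zero, add_zero, sub_zero]
      funext l
      fin_cases l <;> simp [brC, ee]
    · simp only [cf_sub, cf_add, cf_smul, cf_br3 (l0 _) (l0 _) (l0 _), cf_br_lead2 (l0 _) (l0 _)]
      funext l
      fin_cases l <;> simp [brC, ee]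
      all_goals try first | linear_combination hu | linear_combination -hu | linear_combination hv | linear_combination -hv | linear_combination hw | linear_combination -hw | linear_combination hx | linear_combination -hx | linear_combination hy | linear_combination -hy | linear_combination hz | linear_combination -hz
  obtain ⟨b4, hb4⟩ : ∃ b : Fin 3 → ℂ, (br (E 0) (br (E 2) (E 0)) + br (E 1) (br (E 1) (E 2))) - ((-v) • br (E 2) (E 0) + y • br (E 0) (E 1) + u • br (E 1) (E 2))
      = b 0 • E 1 + b 1 • E 2 + b 2 • E 0 := by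
    apply expand_of_jets hU hE
    · exact U.sub_mem (U.add_mem (mb (m 0) (mb (m 2) (m 0))) (mb (m 1) (mb (m 1) (m 2))))
        (U.add_mem (U.add_mem (U.smul_mem _ (mb (m 2) (m 0))) (U.smul_mem _ (mb (m 0) (m 1)))) (U.smul_mem _ (mb (m 1) (m 2))))
    · exact ((ord3_br (l0 0) (l0 2) (l0 0)).add (ord3_br (l0 1) (l0 1) (l0 2))).sub
        (((((ord2_br (l0 2) (l0 0)).smul _).add ((ord2_br (l0 0) (l0 1)).smul _)).add ((ord2_br (l0 1) (l0 2)).smul _)).mono (by norm_num))
    · simp only [cf_sub, cf_add, cf_smul, cf_br33 (l0 _) (l0 _) (l0 _)]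
      simp only [ord2_br (l0 _) (l0 _) (-3) (by norm_num), smul_zero, add_zero, sub_zero]
      funext l
      fin_cases l <;> simp [brC, ee]
    · simp only [cf_sub, cf_add, cf_smul, cf_br3 (l0 _) (l0 _) (l0 _), cf_br_lead2 (l0 _) (l0 _)]
      funext l
      fin_cases l <;> simp [brC, ee]
      all_goals try first | linear_combination hu | linear_combination -hu | linear_combination hv | linear_combination -hv | linear_combination hw | linear_combination -hw | linear_combination hx | linear_combination -hx | linear_combination hy | linear_combination -hy | linear_combination hz | linear_combination -hz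
  obtain ⟨b5, hb5⟩ : ∃ b : Fin 3 → ℂ, (br (E 1) (br (E 0) (E 1)) + br (E 2) (br (E 2) (E 0))) - (w • br (E 2) (E 0) + (-u) • br (E 0) (E 1) + z • br (E 1) (E 2))
      = b 0 • E 1 + b 1 • E 2 + b 2 • E 0 := by
    apply expand_of_jets hU hE
    · exact U.sub_mem (U.add_mem (mb (m 1) (mb (m 0) (m 1))) (mb (m 2) (mb (m 2) (m 0))))
        (U.add_mem (U.add_mem (U.smul_mem _ (mb (m 2) (m 0))) (U.smul_mem _ (mb (m 0) (m 1)))) (U.smul_mem _ (mb (m 1) (m 2))))
    · exact ((ord3_br (l0 1) (l0 0) (l0 1)).add (ord3_br (l0 2) (l0 2) (l0 0))).sub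
        (((((ord2_br (l0 2) (l0 0)).smul _).add ((ord2_br (l0 0) (l0 1)).smul _)).add ((ord2_br (l0 1) (l0 2)).smul _)).mono (by norm_num))
    · simp only [cf_sub, cf_add, cf_smul, cf_br33 (l0 _) (l0 _) (l0 _)]
      simp only [ord2_br (l0 _) (l0 _) (-3) (by norm_num), smul_zero, add_zero, sub_zero]
      funext l
      fin_cases l <;> simp [brC, ee]
    · simp only [cf_sub, cf_add, cf_smul, cf_br3 (l0 _) (l0 _) (l0 _), cf_br_lead2 (l0 _) (l0 _)]
      funext l
      fin_cases l <;> simp [brC, ee]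
      all_goals try first | linear_combination hu | linear_combination -hu | linear_combination hv | linear_combination -hv | linear_combination hw | linear_combination -hw | linear_combination hx | linear_combination -hx | linear_combination hy | linear_combination -hy | linear_combination hz | linear_combination -hz
  refine ⟨u, v, w, x, y, z, ![b0, b1, b2], ![b3, b4, b5], ?_, ?_, ?_, ?_, ?_, ?_⟩
  · exact (sub_eq_iff_eq_add'.mp hb0)
  · exact (sub_eq_iff_eq_add'.mp hb1)
  · exact (sub_eq_iff_eq_add'.mp hb2)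
  · exact (sub_eq_iff_eq_add'.mp hb3)
  · exact (sub_eq_iff_eq_add'.mp hb4)
  · exact (sub_eq_iff_eq_add'.mp hb5)

end

end Q8.SM
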