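import Pool.Agent.Q8.SM.Defs

namespace Q8.SM

lemma coeff_mul_lt {f g : KK} {p q k : ℤ} (hf : ∀ k < p, f.coeff k = 0)
    (hg : ∀ k < q, g.coeff k = 0) (hk : k < p + q) : (f * g).coeff k = 0 := by
  rw [HahnSeries.coeff_mul]
  apply Finset.sum_eq_zero
  intro ij hij
  rw [Finset.mem_antidiagonal] at hij
  rcases lt_or_ge ij.1 p with h | h
  · rw [hf _ h, zero_mul]
  · rw [hg ij.2 (by omega), mul_zero]

lemma single_mul_coeff (p k : ℤ) (r : ℂ) (g : KK) :
    (HahnSeries.single p r * g).coeff k = r * g.coeff (k - p) := by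
  have := HahnSeries.coeff_single_mul_add (r := r) (x := g) (a := k - p) (b := p)
  rwa [sub_add_cancel] at this

lemma coeff_mul_eq {f g : KK} {p q : ℤ} (hf : ∀ k < p, f.coeff k = 0)
    (hg : ∀ k < q, g.coeff k = 0) : (f * g).coeff (p + q) = f.coeff p * g.coeff q := by
  have h1 : f = HahnSeries.single p (f.coeff p) + (f - HahnSeries.single p (f.coeff p)) := by ring
  have h2 : ∀ k < p + 1, (f - HahnSeries.single p (f.coeff p)).coeff k = 0 := by
    intro k hk
    rw [HahnSeries.coeff_sub]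
    rcases lt_or_eq_of_le (Int.lt_add_one_iff.1 hk) with h' | rfl
    · rw [hf k h', HahnSeries.coeff_single_of_ne h'.ne, sub_zero]
    · rw [HahnSeries.coeff_single_same, sub_self]
  rw [h1, add_mul, HahnSeries.coeff_add, single_mul_coeff, coeff_mul_lt h2 hg (by omega),
    add_zero, ← h1]
  congr 2
  ring

lemma coeff_mul_eq1 {f g : KK} {p q : ℤ} (hf : ∀ k < p, f.coeff k = 0)
    (hg : ∀ k < q, g.coeff k = 0) :
    (f * g).coeff (p + q + 1) = f.coeff p * g.coeff (q + 1) + f.coeff (p + 1) * g.coeff q := by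
  have h1 : f = HahnSeries.single p (f.coeff p) + (f - HahnSeries.single p (f.coeff p)) := by ring
  have h2 : ∀ k < p + 1, (f - HahnSeries.single p (f.coeff p)).coeff k = 0 := by
    intro k hk
    rw [HahnSeries.coeff_sub]
    rcases lt_or_eq_of_le (Int.lt_add_one_iff.1 hk) with h' | rfl
    · rw [hf k h', HahnSeries.coeff_single_of_ne h'.ne, sub_zero]
    · rw [HahnSeries.coeff_single_same, sub_self]
  have h3 : (f - HahnSeries.single p (f.coeff p)).coeff (p + 1) = f.coeff (p + 1) := by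
    rw [HahnSeries.coeff_sub, HahnSeries.coeff_single_of_ne (by omega), sub_zero]
  have h4 := coeff_mul_eq h2 hg
  rw [h3] at h4
  have h5 : f * g = HahnSeries.single p (f.coeff p) * g
      + (f - HahnSeries.single p (f.coeff p)) * g := by ring
  rw [h5, HahnSeries.coeff_add, single_mul_coeff, show p + q + 1 = p + 1 + q by ring, h4]
  congr 3
  ring

/-- coefficient vector -/
def cf (k : ℤ) (X : VV) : Fin 3 → ℂ := fun i => (X i).coeff k

/-- order at least `p` -/
def Ord (p : ℤ) (X : VV) : Prop := ∀ k < p, cf k X = 0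

lemma Ord.comp {p : ℤ} {X : VV} (h : Ord p X) (i : Fin 3) : ∀ k < p, (X i).coeff k = 0 :=
  fun k hk => congrFun (h k hk) i

@[simp] lemma cf_apply (k : ℤ) (X : VV) (i : Fin 3) : cf k X i = (X i).coeff k := rfl

lemma cf_add (k : ℤ) (X Y : VV) : cf k (X + Y) = cf k X + cf k Y := by
  funext i; simp [cf]

lemma cf_sub (k : ℤ) (X Y : VV) : cf k (X - Y) = cf k X - cf k Y := by
  funext i; simp [cf]

lemma cf_smul (k : ℤ) (c : ℂ) (X : VV) : cf k (c • X) = c • cf k X := by
  funext i; simp [cf]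

lemma Ord.add {p : ℤ} {X Y : VV} (hX : Ord p X) (hY : Ord p Y) : Ord p (X + Y) := by
  intro k hk; rw [cf_add, hX k hk, hY k hk, add_zero]

lemma Ord.sub {p : ℤ} {X Y : VV} (hX : Ord p X) (hY : Ord p Y) : Ord p (X - Y) := by
  intro k hk; rw [cf_sub, hX k hk, hY k hk, sub_zero]

lemma Ord.smul {p : ℤ} {X : VV} (c : ℂ) (hX : Ord p X) : Ord p (c • X) := by
  intro k hk; rw [cf_smul, hX k hk, smul_zero]

lemma Ord.mono {p q : ℤ} (h : q ≤ p) {X : VV} (hX : Ord p X) : Ord q X :=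
  fun k hk => hX k (by omega)

lemma ord_zero_iff {X : VV} : Ord 0 X ↔ X ∈ taylor := by
  constructor
  · intro h i k hk; exact h.comp i k hk
  · intro h k hk; funext i; exact h i k hk

/-- the bracket on `ℂ³` -/
def brC (a b : Fin 3 → ℂ) : Fin 3 → ℂ :=
  ![a 2 * b 1 - a 1 * b 2, a 0 * b 2 - a 2 * b 0, a 1 * b 0 - a 0 * b 1]

lemma Ord.br {p q : ℤ} {X Y : VV} (hX : Ord p X) (hY : Ord q Y) : Ord (p + q) (br X Y) := by
  intro k hk
  funext i
  fin_cases i <;>
  · simp only [cf, Q8.SM.br, Fin.zero_eta, Fin.mk_one, Fin.reduceFinMk, Fin.isValue,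
      Matrix.cons_val_zero, Matrix.cons_val_one, Matrix.cons_val, Pi.zero_apply]
    rw [HahnSeries.coeff_sub, coeff_mul_lt (hX.comp _) (hY.comp _) hk,
      coeff_mul_lt (hX.comp _) (hY.comp _) hk, sub_zero]

lemma cf_br {p q : ℤ} {X Y : VV} (hX : Ord p X) (hY : Ord q Y) :
    cf (p + q) (br X Y) = brC (cf p X) (cf q Y) := by
  funext i
  fin_cases i <;>
  · simp only [cf, br, brC, Fin.zero_eta, Fin.mk_one, Fin.reduceFinMk, Fin.isValue,
      Matrix.cons_val_zero, Matrix.cons_val_one, Matrix.cons_val]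
    rw [HahnSeries.coeff_sub, coeff_mul_eq (hX.comp _) (hY.comp _),
      coeff_mul_eq (hX.comp _) (hY.comp _)]

lemma cf_br1 {p q : ℤ} {X Y : VV} (hX : Ord p X) (hY : Ord q Y) :
    cf (p + q + 1) (br X Y) = brC (cf p X) (cf (q + 1) Y) + brC (cf (p + 1) X) (cf q Y) := by
  funext i
  fin_cases i <;>
  · simp only [cf, br, brC, Fin.zero_eta, Fin.mk_one, Fin.reduceFinMk, Fin.isValue,
      Matrix.cons_val_zero, Matrix.cons_val_one, Matrix.cons_val, Pi.add_apply]
    rw [HahnSeries.coeff_sub, coeff_mul_eq1 (hX.comp _) (hY.comp _),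
      coeff_mul_eq1 (hX.comp _) (hY.comp _)]
    ring

/-- unit vectors -/
def ee (i : Fin 3) : Fin 3 → ℂ := fun j => if j = i then 1 else 0

lemma cf_eL (i : Fin 3) : cf (-1) (eL i) = ee i := by
  funext j
  simp only [cf, eL, ee]
  split_ifs <;> simp

lemma cf_eL_ne (i : Fin 3) {k : ℤ} (hk : k ≠ -1) : cf k (eL i) = 0 := by
  funext j
  simp only [cf, eL, Pi.zero_apply]
  split_ifs
  · exact HahnSeries.coeff_single_of_ne hk
  · simp

lemma lead_ord {X : VV} {i : Fin 3} (h : X - eL i ∈ taylor) : Ord (-1) X := by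
  rw [← ord_zero_iff] at h
  intro k hk
  have h1 := h k (by omega)
  rw [cf_sub, cf_eL_ne i (by omega), sub_zero] at h1
  exact h1

lemma lead_cf {X : VV} {i : Fin 3} (h : X - eL i ∈ taylor) : cf (-1) X = ee i := by
  rw [← ord_zero_iff] at h
  have h1 := h (-1) (by omega)
  rw [cf_sub, cf_eL, sub_eq_zero] at h1
  exact h1

end Q8.SM
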