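import Pool.Agent.Q8.SM.Exist

namespace Q8.SM

/-- the imaginary unit as a constant series -/
noncomputable def ii : KK := HahnSeries.C Complex.I

lemma ii_sq : ii * ii = -1 := by
  unfold ii
  rw [← map_mul, Complex.I_mul_I, map_neg, map_one]

/-- `λ` -/
noncomputable def LL : KK := HahnSeries.single 1 1

/-- `1/2` -/
noncomputable def hh : KK := HahnSeries.C (1 / 2)

lemma two_hh : 2 * hh = 1 := by
  unfold hh
  rw [show (2 : KK) = HahnSeries.C 2 by rw [map_ofNat], ← map_mul]
  norm_num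

/-- the automorphism `exp (t ad n)`, `n = e₁ + i e₂` isotropic -/
noncomputable def Gf (t : KK) (X : VV) : VV :=
  ![X 0 - t * (ii * X 2) + t * t * hh * (X 0 + ii * X 1),
    X 1 + t * X 2 + t * t * hh * (ii * X 0 - X 1),
    X 2 + t * (ii * X 0 - X 1)]

lemma Gf_inv (t : KK) (X : VV) : Gf (-t) (Gf t X) = X := by
  have h1 := ii_sq
  have h2 := two_hh
  funext j
  fin_cases j <;> simp only [Gf, Fin.zero_eta, Fin.mk_one, Fin.reduceFinMk, Fin.isValue,
    Matrix.cons_val_zero, Matrix.cons_val_one, Matrix.cons_val] <;> grind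

lemma Gf_br (t : KK) (X Y : VV) : Gf t (br X Y) = br (Gf t X) (Gf t Y) := by
  have h1 := ii_sq
  have h2 := two_hh
  funext j
  fin_cases j <;> simp only [Gf, br, Fin.zero_eta, Fin.mk_one, Fin.reduceFinMk, Fin.isValue,
    Matrix.cons_val_zero, Matrix.cons_val_one, Matrix.cons_val] <;> grind

lemma Gf_dot (t : KK) (X Y : VV) : dot (Gf t X) (Gf t Y) = dot X Y := by
  have h1 := ii_sq
  have h2 := two_hh
  simp only [Gf, dot, Matrix.cons_val_zero, Matrix.cons_val_one, Matrix.cons_val]
  grind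

/-- `G = exp (λ ad n)` as a linear automorphism -/
noncomputable def GG (t : KK) : VV →ₗ[ℂ] VV where
  toFun := Gf t
  map_add' X Y := by
    funext j
    fin_cases j <;> simp only [Gf, Pi.add_apply, Fin.zero_eta, Fin.mk_one, Fin.reduceFinMk,
      Fin.isValue, Matrix.cons_val_zero, Matrix.cons_val_one, Matrix.cons_val] <;> ring
  map_smul' c X := by
    funext j
    simp only [RingHom.id_apply]
    fin_cases j <;> simp only [Gf, Pi.smul_apply, smul_C, Fin.zero_eta, Fin.mk_one,
      Fin.reduceFinMk, Fin.isValue, Matrix.cons_val_zero, Matrix.cons_val_one,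
      Matrix.cons_val] <;> ring

lemma GG_apply (t : KK) (X : VV) : GG t X = Gf t X := rfl

/-- polynomials in `λ⁻¹` without constant term -/
def neg : Submodule ℂ VV where
  carrier := {X | ∀ j, ∀ k : ℤ, 0 ≤ k → (X j).coeff k = 0}
  zero_mem' := fun i k _ => by simp
  add_mem' := fun {X Y} hX hY i k hk => by
    show (X i + Y i).coeff k = 0
    rw [HahnSeries.coeff_add, hX i k hk, hY i k hk, add_zero]
  smul_mem' := fun c X hX i k hk => by
    show (c • X i).coeff k = 0
    rw [HahnSeries.coeff_smul, hX i k hk, smul_zero]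

lemma mul_neg_coeff {f g : KK} (hf : ∀ k : ℤ, 0 ≤ k → f.coeff k = 0)
    (hg : ∀ k : ℤ, 0 ≤ k → g.coeff k = 0) {k : ℤ} (hk : -1 ≤ k) : (f * g).coeff k = 0 := by
  rw [HahnSeries.coeff_mul]
  apply Finset.sum_eq_zero
  intro ij hij
  rw [Finset.mem_antidiagonal] at hij
  rcases lt_or_ge ij.1 0 with h | h
  · rw [hg ij.2 (by omega), mul_zero]
  · rw [hf ij.1 h, zero_mul]

lemma neg_br {X Y : VV} (hX : X ∈ neg) (hY : Y ∈ neg) : br X Y ∈ neg := by
  intro j k hk
  fin_cases j <;> simp only [br, Fin.zero_eta, Fin.mk_one, Fin.reduceFinMk, Fin.isValue,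
    Matrix.cons_val_zero, Matrix.cons_val_one, Matrix.cons_val] <;>
  · rw [HahnSeries.coeff_sub, mul_neg_coeff (hX _) (hY _) (by omega),
      mul_neg_coeff (hX _) (hY _) (by omega), sub_zero]

lemma neg_pair {X Y : VV} (hX : X ∈ neg) (hY : Y ∈ neg) : pair 1 X Y = 0 := by
  unfold pair dot
  rw [PowerSeries.coe_one, one_mul, HahnSeries.coeff_add, HahnSeries.coeff_add,
    mul_neg_coeff (hX _) (hY _) le_rfl, mul_neg_coeff (hX _) (hY _) le_rfl,
    mul_neg_coeff (hX _) (hY _) le_rfl]
  ring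

lemma split (X : VV) : ∃ t ∈ taylor, ∃ g ∈ neg, t + g = X := by
  set t : VV := fun j => ((PowerSeries.mk (fun n => (X j).coeff n) : PowerSeries ℂ) : KK) with ht
  refine ⟨t, fun j => ps_taylor _, X - t, ?_, by abel⟩
  intro j k hk
  obtain ⟨n, rfl⟩ : ∃ n : ℕ, k = n := ⟨k.toNat, by omega⟩
  show (X j - t j).coeff n = 0
  rw [HahnSeries.coeff_sub, ht]
  simp only
  rw [ps_coeff, PowerSeries.coeff_mk, sub_self]

lemma isTaylor_C (c : ℂ) : IsTaylor (HahnSeries.C c) := by
  intro k hk
  rw [HahnSeries.C_apply, HahnSeries.coeff_single_of_ne hk.ne]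

lemma isTaylor_single (n : ℤ) (hn : 0 ≤ n) (c : ℂ) : IsTaylor (HahnSeries.single n c) := by
  intro k hk
  exact HahnSeries.coeff_single_of_ne (by omega)

lemma IsTaylor.sub {f g : KK} (hf : IsTaylor f) (hg : IsTaylor g) : IsTaylor (f - g) := by
  intro k hk
  rw [HahnSeries.coeff_sub, hf k hk, hg k hk, sub_zero]

lemma G_taylor {t : KK} (ht : IsTaylor t) {X : VV} (hX : X ∈ taylor) : Gf t X ∈ taylor := by
  have hi : IsTaylor ii := isTaylor_C _
  have h2 : IsTaylor hh := isTaylor_C _
  intro j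
  fin_cases j
  · exact ((hX 0).sub (ht.mul (hi.mul (hX 2)))).add
      (((ht.mul ht).mul h2).mul ((hX 0).add (hi.mul (hX 1))))
  · exact ((hX 1).add (ht.mul (hX 2))).add
      (((ht.mul ht).mul h2).mul ((hi.mul (hX 0)).sub (hX 1)))
  · exact (hX 2).add (ht.mul ((hi.mul (hX 0)).sub (hX 1)))

lemma isTaylor_LL : IsTaylor LL := isTaylor_single 1 (by norm_num) 1

lemma isTaylor_nLL : IsTaylor (-LL) := by
  have := (isTaylor_C 0).sub isTaylor_LL
  rwa [map_zero, zero_sub] at this

/-- the factoring subalgebra `G(λ⁻¹ so₃[λ⁻¹])` -/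
noncomputable def UU : Submodule ℂ VV := neg.map (GG LL)

lemma Gf_inv' (X : VV) : Gf LL (Gf (-LL) X) = X := by
  have := Gf_inv (-LL) X
  rwa [neg_neg] at this

lemma factoring_UU : Factoring UU := by
  constructor
  · rintro _ ⟨X, hX, rfl⟩ _ ⟨Y, hY, rfl⟩
    exact ⟨br X Y, neg_br hX hY, by rw [GG_apply, GG_apply, GG_apply, Gf_br]⟩
  · constructor
    · rw [Submodule.disjoint_def]
      rintro _ h1 ⟨X, hX, rfl⟩
      have h2 : X ∈ taylor := by
        have := G_taylor isTaylor_nLL h1
        rwa [GG_apply, Gf_inv] at this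
      have h3 : X = 0 := by
        funext j
        ext k
        rcases lt_or_ge k 0 with h | h
        · exact h2 j k h
        · exact hX j k h
      rw [h3, map_zero]
    · rw [codisjoint_iff, eq_top_iff]
      rintro X -
      obtain ⟨t, ht, g, hg, h⟩ := split (Gf (-LL) X)
      have e : X = Gf LL t + Gf LL g := by
        have : GG LL (t + g) = GG LL t + GG LL g := map_add _ _ _
        rw [GG_apply, GG_apply, GG_apply, h, Gf_inv'] at this
        exact this
      rw [e]
      exact Submodule.add_mem_sup (G_taylor isTaylor_LL ht) ⟨g, hg, rfl⟩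

lemma eL_neg (i : Fin 3) : eL i ∈ neg := by
  intro j k hk
  simp only [eL]
  split_ifs
  · exact HahnSeries.coeff_single_of_ne (by omega)
  · simp

/-- generators -/
noncomputable def EE (i : Fin 3) : VV := Gf LL (eL i)

lemma LL_inv : LL * HahnSeries.single (-1) (1 : ℂ) = 1 := by
  unfold LL
  rw [HahnSeries.single_mul_single]
  simp

lemma gens_EE : Gens UU EE := by
  have hi : IsTaylor ii := isTaylor_C _
  have h2 : IsTaylor hh := isTaylor_C _
  refine ⟨fun i => ⟨eL i, eL_neg i, rfl⟩, ?_⟩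
  have h1 := LL_inv
  have hL := isTaylor_LL
  have h0 : IsTaylor 0 := fun k _ => by simp
  have hone : IsTaylor 1 := by
    have := isTaylor_C 1
    rwa [map_one] at this
  intro i
  have key : ∀ i j, IsTaylor (LL * eL i j) := by
    intro i j
    simp only [eL]
    split_ifs
    · rw [h1]; exact hone
    · rw [mul_zero]; exact h0
  intro j
  have e : (EE i - eL i) j = ![-(ii * (LL * eL i 2)) + LL * hh * (LL * eL i 0 + ii * (LL * eL i 1)),
      LL * eL i 2 + LL * hh * (ii * (LL * eL i 0) - LL * eL i 1),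
      ii * (LL * eL i 0) - LL * eL i 1] j := by
    fin_cases j <;> simp only [EE, Gf, Pi.sub_apply, Fin.zero_eta, Fin.mk_one, Fin.reduceFinMk,
      Fin.isValue, Matrix.cons_val_zero, Matrix.cons_val_one, Matrix.cons_val] <;> ring
  rw [e]
  fin_cases j
  · have h := (h0.sub (hi.mul (key i 2))).add ((hL.mul h2).mul ((key i 0).add (hi.mul (key i 1))))
    rwa [zero_sub] at h
  · exact (key i 2).add ((hL.mul h2).mul ((hi.mul (key i 0)).sub (key i 1)))
  · exact (hi.mul (key i 0)).sub (key i 1)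

lemma zero_smul' (X : VV) : (0 : ℂ) • X = 0 := by
  funext i
  show (0 : ℂ) • X i = 0
  rw [smul_C, map_zero, zero_mul]

lemma cubic_EE : Cubic EE 0 0 0 0 0 0 0 0 := by
  have hb : ∀ X Y, br (Gf LL X) (Gf LL Y) = Gf LL (br X Y) := fun X Y => (Gf_br LL X Y).symm
  have z : Gf LL 0 = 0 := by
    have := map_zero (GG LL)
    rwa [GG_apply] at this
  have hadd : ∀ X Y, Gf LL X + Gf LL Y = Gf LL (X + Y) := fun X Y => (map_add (GG LL) X Y).symm
  have c : ∀ X : VV, X = 0 → Gf LL X = 0 := by
    rintro _ rfl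
    exact z
  constructor <;> simp only [EE, hb, hadd, neg_zero, zero_smul', add_zero, Matrix.zero_apply] <;>
  · apply c
    funext j
    fin_cases j <;> simp [br, eL]

lemma EE_perp (i : Fin 3) : EE i ∈ perpS UU 1 := by
  rintro _ ⟨Y, hY, rfl⟩
  have : pair 1 (EE i) (GG LL Y) = pair 1 (eL i) Y := by
    unfold pair EE
    rw [GG_apply, Gf_dot]
  rw [this]
  exact neg_pair (eL_neg i) hY

/-- the literal triple with `S = 1` -/
noncomputable def lit (i : Fin 3) : VV := fun j => EE i j + if j = i then 1 else 0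

/-- finite support -/
def Fin' (f : KK) : Prop := ∃ N : ℤ, ∀ k : ℤ, N < k → f.coeff k = 0

lemma Fin'.add {f g : KK} (hf : Fin' f) (hg : Fin' g) : Fin' (f + g) := by
  obtain ⟨N, hN⟩ := hf
  obtain ⟨M, hM⟩ := hg
  refine ⟨max N M, fun k hk => ?_⟩
  rw [HahnSeries.coeff_add, hN k (lt_of_le_of_lt (le_max_left _ _) hk),
    hM k (lt_of_le_of_lt (le_max_right _ _) hk), add_zero]

lemma Fin'.sub {f g : KK} (hf : Fin' f) (hg : Fin' g) : Fin' (f - g) := by
  obtain ⟨N, hN⟩ := hf
  obtain ⟨M, hM⟩ := hg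
  refine ⟨max N M, fun k hk => ?_⟩
  rw [HahnSeries.coeff_sub, hN k (lt_of_le_of_lt (le_max_left _ _) hk),
    hM k (lt_of_le_of_lt (le_max_right _ _) hk), sub_zero]

lemma Fin'.mul {f g : KK} (hf : Fin' f) (hg : Fin' g) : Fin' (f * g) := by
  obtain ⟨N, hN⟩ := hf
  obtain ⟨M, hM⟩ := hg
  refine ⟨N + M, fun k hk => ?_⟩
  rw [HahnSeries.coeff_mul]
  apply Finset.sum_eq_zero
  intro ij hij
  rw [Finset.mem_antidiagonal] at hij
  rcases lt_or_ge N ij.1 with h | h
  · rw [hN _ h, zero_mul]
  · rw [hM ij.2 (by omega), mul_zero]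

lemma fin_C (c : ℂ) : Fin' (HahnSeries.C c) :=
  ⟨0, fun k hk => by rw [HahnSeries.C_apply, HahnSeries.coeff_single_of_ne hk.ne']⟩

lemma fin_LL : Fin' LL :=
  ⟨1, fun k hk => by rw [LL, HahnSeries.coeff_single_of_ne hk.ne']⟩

/-- Laurent polynomials -/
def laur : Submodule ℂ VV where
  carrier := {X | ∀ j, Fin' (X j)}
  zero_mem' := fun i => ⟨0, fun k _ => by simp⟩
  add_mem' := fun {X Y} hX hY i => (hX i).add (hY i)
  smul_mem' := fun c X hX i => by
    show Fin' (c • X i)
    rw [smul_C]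
    exact (fin_C c).mul (hX i)

lemma laur_br {X Y : VV} (hX : X ∈ laur) (hY : Y ∈ laur) : br X Y ∈ laur := by
  intro j
  fin_cases j
  · exact ((hX 2).mul (hY 1)).sub ((hX 1).mul (hY 2))
  · exact ((hX 0).mul (hY 2)).sub ((hX 2).mul (hY 0))
  · exact ((hX 1).mul (hY 0)).sub ((hX 0).mul (hY 1))

lemma laur_G {X : VV} (hX : X ∈ laur) : Gf LL X ∈ laur := by
  have hi : Fin' ii := fin_C _
  have h2 : Fin' hh := fin_C _
  have ht := fin_LL
  intro j
  fin_cases j
  · exact ((hX 0).sub (ht.mul (hi.mul (hX 2)))).add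
      (((ht.mul ht).mul h2).mul ((hX 0).add (hi.mul (hX 1))))
  · exact ((hX 1).add (ht.mul (hX 2))).add
      (((ht.mul ht).mul h2).mul ((hi.mul (hX 0)).sub (hX 1)))
  · exact (hX 2).add (ht.mul ((hi.mul (hX 0)).sub (hX 1)))

lemma neg_le_laur : neg ≤ laur := fun X hX j => ⟨0, fun k hk => hX j k hk.le⟩

lemma UU_le_laur : UU ≤ laur := by
  rintro _ ⟨X, hX, rfl⟩
  exact laur_G (neg_le_laur hX)

lemma lit_laur (i : Fin 3) : lit i ∈ laur := by
  intro j
  refine Fin'.add (laur_G (neg_le_laur (eL_neg i)) j) ?_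
  split_ifs
  · have := fin_C 1
    rwa [map_one] at this
  · exact ⟨0, fun k _ => by simp⟩

lemma gen_laur {X : VV} (hX : X ∈ gen UU lit) : X ∈ laur :=
  hX laur lit_laur (fun _ hY _ hZ => laur_br (UU_le_laur hY) hZ)

/-- the geometric series -/
noncomputable def geo : PowerSeries ℂ := PowerSeries.mk fun _ => 1

lemma not_laur : (fun _ => (geo : KK) : VV) ∉ laur := by
  intro h
  obtain ⟨N, hN⟩ := h 0
  have h1 := hN ((N.toNat + 1 : ℕ) : ℤ) (by omega)
  rw [ps_coeff, geo, PowerSeries.coeff_mk] at h1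
  exact one_ne_zero h1

lemma EE2 : EE 2 0 = -ii ∧ EE 2 2 = HahnSeries.single (-1) (1 : ℂ) := by
  have h1 := LL_inv
  constructor
  · simp only [EE, Gf, eL, Matrix.cons_val_zero]
    simp only [Fin.isValue, show ((0 : Fin 3) = 2) = False by simp,
      show ((1 : Fin 3) = 2) = False by simp, if_false, if_true]
    linear_combination (-ii) * h1
  · simp only [EE, Gf, eL, Matrix.cons_val]
    simp

lemma br_self (X : VV) : br X X = 0 := by
  funext j
  fin_cases j <;> simp only [br, Fin.zero_eta, Fin.mk_one, Fin.reduceFinMk, Fin.isValue,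
    Matrix.cons_val_zero, Matrix.cons_val_one, Matrix.cons_val, Pi.zero_apply] <;> ring

lemma br_add_br (X Y : VV) : br X Y + br Y X = 0 := by
  funext j
  fin_cases j <;> simp only [br, Pi.add_apply, Fin.zero_eta, Fin.mk_one, Fin.reduceFinMk,
    Fin.isValue, Matrix.cons_val_zero, Matrix.cons_val_one, Matrix.cons_val,
    Pi.zero_apply] <;> ring

lemma adm_EE : Admissible EE EE 0 0 0 0 0 0 := by
  refine ⟨gens_EE.lead, ?_⟩
  constructor <;> simp only [neg_zero, zero_smul', add_zero, br_self, br_add_br]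

theorem literal_fails : ¬ ∃ P : PowerSeries ℂ, gen UU lit = perp UU P := by
  rintro ⟨P, hP⟩
  have hlit : ∀ i, lit i ∈ perp UU P := by
    intro i
    rw [← hP]
    exact fun M h _ => h i
  set p : ℂ := PowerSeries.constantCoeff P with hp
  have hZ : (fun j => (P : KK) * lit 2 j - HahnSeries.C p * EE 2 j : VV) ∈ perpS UU 1 := by
    have h1 : (fun j => (P : KK) * lit 2 j : VV) ∈ perpS UU 1 := by
      intro Y hY
      have := hlit 2 Y hY
      unfold pair at this ⊢
      rw [← this]
      congr 1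
      rw [PowerSeries.coe_one, one_mul]
      simp only [dot]
      ring
    have h2 : (fun j => HahnSeries.C p * EE 2 j : VV) ∈ perpS UU 1 := by
      have := (perpS UU 1).smul_mem p (EE_perp 2)
      have e : (p • EE 2 : VV) = fun j => HahnSeries.C p * EE 2 j := by
        funext j
        show p • EE 2 j = _
        rw [smul_C]
      rwa [e] at this
    exact (perpS UU 1).sub_mem h1 h2
  have hT : (fun j => (P : KK) * lit 2 j - HahnSeries.C p * EE 2 j : VV) ∈ taylor := by
    intro j
    have l := gens_EE.lead 2 j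
    have c1 : IsTaylor (if j = 2 then (1 : KK) else 0) := by
      split_ifs
      · have := isTaylor_C 1
        rwa [map_one] at this
      · exact fun k _ => by simp
    have c2 : IsTaylor (((P : KK) - HahnSeries.C p) * eL 2 j) := by
      simp only [eL]
      split_ifs
      · intro k hk
        have hk1 : k = (k + 1) + (-1) := by ring
        rw [hk1, HahnSeries.coeff_mul_single_add, HahnSeries.coeff_sub, mul_one]
        rcases lt_or_eq_of_le (show k + 1 ≤ 0 by omega) with h | h
        · rw [ps_taylor P _ h, isTaylor_C p _ h, sub_zero]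
        · rw [h]
          have := ps_coeff P 0
          rw [Nat.cast_zero] at this
          rw [this, hp, HahnSeries.C_apply, HahnSeries.coeff_single_same]
          simp
      · rw [mul_zero]
        exact fun k _ => by simp
    have e : (P : KK) * lit 2 j - HahnSeries.C p * EE 2 j =
        (((P : KK) * (EE 2 - eL 2) j + (P : KK) * (if j = 2 then (1 : KK) else 0))
          - HahnSeries.C p * (EE 2 - eL 2) j) + ((P : KK) - HahnSeries.C p) * eL 2 j := by
      simp only [lit, Pi.sub_apply]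
      ring
    show IsTaylor ((P : KK) * lit 2 j - HahnSeries.C p * EE 2 j)
    rw [e]
    exact ((((ps_taylor P).mul l).add ((ps_taylor P).mul c1)).sub ((isTaylor_C p).mul l)).add c2
  have h0 := perp_taylor factoring_UU one_ne_zero hZ hT
  have e0 : (P : KK) * lit 2 0 - HahnSeries.C p * EE 2 0 = 0 := congrFun h0 0
  have e2 : (P : KK) * lit 2 2 - HahnSeries.C p * EE 2 2 = 0 := congrFun h0 2
  have l0 : lit 2 0 = EE 2 0 + 0 := rfl
  have l2 : lit 2 2 = EE 2 2 + 1 := rfl
  rw [l0, EE2.1] at e0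
  rw [l2, EE2.2] at e2
  have hii := ii_sq
  have h1 : (P : KK) = HahnSeries.C p := by
    linear_combination ii * e0 + ((P : KK) - HahnSeries.C p) * hii
  have h2 : (P : KK) = 0 := by
    linear_combination e2 - HahnSeries.single (-1) (1 : ℂ) * h1
  apply not_laur
  apply gen_laur
  rw [hP]
  intro Y _
  unfold pair
  rw [h2, zero_mul]
  rfl

end Q8.SM
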