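import Pool.Agent.Q8.SM.Dual

namespace Q8.SM

lemma exists_ord (Z : VV) : ∃ N : ℕ, Ord (-(N : ℤ)) Z := by
  have : ∀ j, ∃ N : ℕ, ∀ k < -(N : ℤ), (Z j).coeff k = 0 := by
    intro j
    refine ⟨(-(Z j).order).toNat, fun k hk => ?_⟩
    apply HahnSeries.coeff_eq_zero_of_lt_order
    omega
  choose f hf using this
  refine ⟨f 0 + f 1 + f 2, ?_⟩
  intro k hk
  funext j
  fin_cases j
  · exact hf 0 k (by push_cast at hk; omega)
  · exact hf 1 k (by push_cast at hk; omega)
  · exact hf 2 k (by push_cast at hk; omega)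

lemma Ord.succ {p : ℤ} {X : VV} (h : Ord p X) (h0 : cf p X = 0) : Ord (p + 1) X := by
  intro k hk
  rcases lt_or_eq_of_le (Int.lt_add_one_iff.1 hk) with h' | rfl
  · exact h k h'
  · exact h0

lemma brC_ee : brC (ee 0) (ee 1) = -ee 2 ∧ brC (ee 1) (ee 2) = -ee 0 ∧ brC (ee 2) (ee 0) = -ee 1 := by
  refine ⟨?_, ?_, ?_⟩ <;> · funext l; fin_cases l <;> simp [brC, ee]

lemma cf_neg (k : ℤ) (X : VV) : cf k (-X) = - cf k X := by
  funext i; simp [cf]

lemma Ord.neg {p : ℤ} {X : VV} (hX : Ord p X) : Ord p (-X) := by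
  intro k hk; rw [cf_neg, hX k hk, neg_zero]

section
variable {U : Submodule ℂ VV} (hU : Factoring U) {E : Fin 3 → VV} (hE : Gens U E)
include hU hE

/-- the module generated by a normalised triple in `U^{⊥_P}` is `U^{⊥_P}` -/
theorem gen_eq_perp {P : PowerSeries ℂ} (hP : P ≠ 0) {R : Fin 3 → VV}
    (hR : ∀ i, R i ∈ perpS U P) (hl : ∀ i, R i - eL i ∈ taylor) : gen U R = perp U P := by
  ext X
  constructor
  · intro h
    exact h (perpS U P) hR (fun Y hY Z hZ => perp_br hU P hY hZ)
  · intro hX M hM hMU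
    have hN : ∀ n : ℕ, ∀ j, ∃ W ∈ M, W ∈ perpS U P ∧ Ord (-(n : ℤ) - 1) W ∧
        cf (-(n : ℤ) - 1) W = ee j := by
      intro n
      induction n with
      | zero =>
        intro j
        refine ⟨R j, hM j, hR j, ?_, ?_⟩
        · simpa using lead_ord (hl j)
        · simpa using lead_cf (hl j)
      | succ n ih =>
        have key : ∀ i j l, brC (ee i) (ee j) = -ee l → ∃ W ∈ M, W ∈ perpS U P ∧
            Ord (-((n + 1 : ℕ) : ℤ) - 1) W ∧ cf (-((n + 1 : ℕ) : ℤ) - 1) W = ee l := by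
          intro i j l hijl
          obtain ⟨W, hW, hWp, hWo, hWc⟩ := ih j
          have e1 : -((n + 1 : ℕ) : ℤ) - 1 = -1 + (-(n : ℤ) - 1) := by push_cast; ring
          refine ⟨-(br (E i) W), M.neg_mem (hMU _ (hE.mem i) _ hW),
            (perpS U P).neg_mem (perp_br hU P (hE.mem i) hWp), ?_, ?_⟩
          · rw [e1]
            exact ((lead_ord (hE.lead i)).br hWo).neg
          · rw [e1, cf_neg, cf_br (lead_ord (hE.lead i)) hWo, lead_cf (hE.lead i), hWc, hijl,
              neg_neg]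
        intro l
        fin_cases l
        · exact key 1 2 0 brC_ee.2.1
        · exact key 2 0 1 brC_ee.2.2
        · exact key 0 1 2 brC_ee.1
    have key2 : ∀ N : ℕ, ∀ Z ∈ perpS U P, Ord (-(N : ℤ)) Z → Z ∈ M := by
      intro N
      induction N with
      | zero =>
        intro Z hZ ho
        rw [perp_taylor hU hP hZ (ord_zero_iff.mp (by simpa using ho))]
        exact M.zero_mem
      | succ N ih =>
        intro Z hZ ho
        obtain ⟨W0, h0, p0, o0, c0⟩ := hN N 0
        obtain ⟨W1, h1, p1, o1, c1⟩ := hN N 1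
        obtain ⟨W2, h2, p2, o2, c2⟩ := hN N 2
        set a := cf (-(N : ℤ) - 1) Z with ha
        set W : VV := a 0 • W0 + a 1 • W1 + a 2 • W2 with hW
        have hWM : W ∈ M := M.add_mem (M.add_mem (M.smul_mem _ h0) (M.smul_mem _ h1))
          (M.smul_mem _ h2)
        have hWp : W ∈ perpS U P := (perpS U P).add_mem ((perpS U P).add_mem
          ((perpS U P).smul_mem _ p0) ((perpS U P).smul_mem _ p1)) ((perpS U P).smul_mem _ p2)
        have hWo : Ord (-(N : ℤ) - 1) W := ((o0.smul _).add (o1.smul _)).add (o2.smul _)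
        have ho' : Ord (-(N : ℤ) - 1) Z := by
          have : -((N + 1 : ℕ) : ℤ) = -(N : ℤ) - 1 := by push_cast; ring
          rwa [this] at ho
        have hc : cf (-(N : ℤ) - 1) (Z - W) = 0 := by
          rw [cf_sub, hW, cf_add, cf_add, cf_smul, cf_smul, cf_smul, c0, c1, c2, ← ha]
          funext l
          fin_cases l <;> simp [ee]
        have h3 := (ho'.sub hWo).succ hc
        have h4 := ih (Z - W) ((perpS U P).sub_mem hZ hWp) (by
          have : -(N : ℤ) = -(N : ℤ) - 1 + 1 := by ring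
          rw [this]; exact h3)
        have e : Z = (Z - W) + W := by abel
        rw [e]
        exact M.add_mem h4 hWM
    obtain ⟨N, hN'⟩ := exists_ord X
    exact key2 N X hX hN'

/-- The matrix of the second coefficients: `R = -Eᵀ` -/
lemma transpose {R : Fin 3 → VV} (hR : ∀ i, R i ∈ perpS U 1) (hl : ∀ i, R i - eL i ∈ taylor)
    (i j : Fin 3) : cf 0 (R i) j = - cf 0 (E j) i := by
  have h := hR i (E j) (hE.mem j)
  unfold pair at h
  rw [PowerSeries.coe_one, one_mul] at h
  have e : ∀ l, (R i l * E j l).coeff (-1) = ee i l * cf 0 (E j) l + cf 0 (R i) l * ee j l := by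
    intro l
    have h1 := coeff_mul_eq1 ((lead_ord (hl i)).comp l) ((lead_ord (hE.lead j)).comp l)
    have h2 : (R i l).coeff (-1) = ee i l := congrFun (lead_cf (hl i)) l
    have h3 : (E j l).coeff (-1) = ee j l := congrFun (lead_cf (hE.lead j)) l
    norm_num at h1
    rw [h1, h2, h3]
    rfl
  unfold dot at h
  rw [HahnSeries.coeff_add, HahnSeries.coeff_add, e, e, e] at h
  have h4 : cf 0 (E j) i + cf 0 (R i) j = 0 := by
    rw [← h]
    fin_cases i <;> fin_cases j <;> simp [ee] <;> ring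
  linear_combination h4

end

/-- the coefficient at `λ^{-2}` of `[E_i,[E_j,E_k]]` and at `λ^{-1}` of `[E_i,R_j]` -/
lemma cf_br_lead {X Y : VV} {i j : Fin 3} (hX : X - eL i ∈ taylor) (hY : Y - eL j ∈ taylor) :
    cf (-1) (br X Y) = brC (ee i) (cf 0 Y) + brC (cf 0 X) (ee j) := by
  have := cf_br1 (lead_ord hX) (lead_ord hY)
  norm_num at this
  rw [this, lead_cf hX, lead_cf hY]

lemma cf_br_lead2 {X Y : VV} {i j : Fin 3} (hX : X - eL i ∈ taylor) (hY : Y - eL j ∈ taylor) :
    cf (-2) (br X Y) = brC (ee i) (ee j) := by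
  have := cf_br (lead_ord hX) (lead_ord hY)
  norm_num at this
  rw [this, lead_cf hX, lead_cf hY]

lemma cf_br3 {X Y Z : VV} {i j k : Fin 3} (hX : X - eL i ∈ taylor) (hY : Y - eL j ∈ taylor)
    (hZ : Z - eL k ∈ taylor) : cf (-2) (br X (br Y Z)) =
      brC (ee i) (brC (ee j) (cf 0 Z) + brC (cf 0 Y) (ee k))
        + brC (cf 0 X) (brC (ee j) (ee k)) := by
  have h2 : Ord (-2) (br Y Z) := by
    have := (lead_ord hY).br (lead_ord hZ)
    norm_num at this
    exact this
  have := cf_br1 (lead_ord hX) h2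
  norm_num at this
  rw [this, lead_cf hX, cf_br_lead2 hY hZ, cf_br_lead hY hZ]

lemma lead_cf2 {X : VV} {i : Fin 3} (h : X - eL i ∈ taylor) : cf (-2) X = 0 :=
  lead_ord h (-2) (by norm_num)

end Q8.SM
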