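import Pool.Agent.Q8.SM.Adm

namespace Q8.SM

/-- multiplication of a triple by a scalar series -/
noncomputable def mulT (τ : KK) (R : Fin 3 → VV) : Fin 3 → VV := fun i j => τ * R i j

section
variable {E R R' : Fin 3 → VV} {u v w x y z : ℂ}

lemma Adm0.sub_mul (h : Adm0 E R u v w x y z) (h' : Adm0 E R' u v w x y z) (τ : KK) :
    Adm0 E (fun i j => R i j - τ * R' i j) u v w x y z := by
  constructor
  all_goals funext j
  · have e := congrFun h.r1 j
    have e' := congrFun h'.r1 j
    fin_cases j <;> simp only [br, Pi.add_apply, Pi.smul_apply, smul_C, Fin.zero_eta, Fin.mk_one,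
      Fin.reduceFinMk, Fin.isValue, Matrix.cons_val_zero, Matrix.cons_val_one,
      Matrix.cons_val] at e e' ⊢ <;> linear_combination e - τ * e'
  · have e := congrFun h.r2 j
    have e' := congrFun h'.r2 j
    fin_cases j <;> simp only [br, Pi.add_apply, Pi.smul_apply, smul_C, Fin.zero_eta, Fin.mk_one,
      Fin.reduceFinMk, Fin.isValue, Matrix.cons_val_zero, Matrix.cons_val_one,
      Matrix.cons_val] at e e' ⊢ <;> linear_combination e - τ * e'
  · have e := congrFun h.r3 j
    have e' := congrFun h'.r3 j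
    fin_cases j <;> simp only [br, Pi.add_apply, Pi.smul_apply, smul_C, Fin.zero_eta, Fin.mk_one,
      Fin.reduceFinMk, Fin.isValue, Matrix.cons_val_zero, Matrix.cons_val_one,
      Matrix.cons_val] at e e' ⊢ <;> linear_combination e - τ * e'
  · have e := congrFun h.s1 j
    have e' := congrFun h'.s1 j
    fin_cases j <;> simp only [br, Pi.add_apply, Pi.smul_apply, smul_C, Fin.zero_eta, Fin.mk_one,
      Fin.reduceFinMk, Fin.isValue, Matrix.cons_val_zero, Matrix.cons_val_one,
      Matrix.cons_val] at e e' ⊢ <;> linear_combination e - τ * e'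
  · have e := congrFun h.s2 j
    have e' := congrFun h'.s2 j
    fin_cases j <;> simp only [br, Pi.add_apply, Pi.smul_apply, smul_C, Fin.zero_eta, Fin.mk_one,
      Fin.reduceFinMk, Fin.isValue, Matrix.cons_val_zero, Matrix.cons_val_one,
      Matrix.cons_val] at e e' ⊢ <;> linear_combination e - τ * e'
  · have e := congrFun h.s3 j
    have e' := congrFun h'.s3 j
    fin_cases j <;> simp only [br, Pi.add_apply, Pi.smul_apply, smul_C, Fin.zero_eta, Fin.mk_one,
      Fin.reduceFinMk, Fin.isValue, Matrix.cons_val_zero, Matrix.cons_val_one,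
      Matrix.cons_val] at e e' ⊢ <;> linear_combination e - τ * e'

lemma step (hl : ∀ i, E i - eL i ∈ taylor) {T : Fin 3 → VV} (h : Adm0 E T u v w x y z)
    (h0 : T 0 0 = 0) {m : ℤ} (hm : ∀ i, Ord m (T i)) : ∀ i, Ord (m + 1) (T i) := by
  have hb : ∀ i j, cf (-1 + m) (br (E i) (T j)) = brC (ee i) (cf m (T j)) := by
    intro i j
    rw [cf_br (lead_ord (hl i)) (hm j), lead_cf (hl i)]
  have hz : ∀ i, cf (-1 + m) (T i) = 0 := fun i => hm i _ (by omega)
  have c1 := congrArg (cf (-1 + m)) h.r1
  have c2 := congrArg (cf (-1 + m)) h.r2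
  have c3 := congrArg (cf (-1 + m)) h.r3
  have c4 := congrArg (cf (-1 + m)) h.s1
  have c5 := congrArg (cf (-1 + m)) h.s2
  simp only [cf_add, cf_smul, hb, hz, smul_zero, add_zero] at c1 c2 c3 c4 c5
  have t00 : cf m (T 0) 0 = 0 := by simp [cf, h0]
  have t01 : cf m (T 0) 1 = 0 := by have := congrFun c1 2; simpa [brC, ee, -cf_apply] using this
  have t02 : cf m (T 0) 2 = 0 := by have := congrFun c1 1; simpa [brC, ee, -cf_apply] using this
  have t20 : cf m (T 2) 0 = 0 := by have := congrFun c2 1; simpa [brC, ee, -cf_apply] using this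
  have t21 : cf m (T 2) 1 = 0 := by have := congrFun c2 0; simpa [brC, ee, -cf_apply] using this
  have t10 : cf m (T 1) 0 = 0 := by have := congrFun c3 2; simpa [brC, ee, -cf_apply] using this
  have t12 : cf m (T 1) 2 = 0 := by have := congrFun c3 0; simpa [brC, ee, -cf_apply] using this
  have t22 : cf m (T 2) 2 = 0 := by
    have := congrFun c4 1
    simpa [brC, ee, -cf_apply, t00] using this
  have t11 : cf m (T 1) 1 = 0 := by
    have := congrFun c5 2
    simpa [brC, ee, -cf_apply, t00] using this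
  intro i
  apply (hm i).succ
  funext j
  fin_cases i <;> fin_cases j
  · exact t00
  · exact t01
  · exact t02
  · exact t10
  · exact t11
  · exact t12
  · exact t20
  · exact t21
  · exact t22

lemma eq_zero_of_adm (hl : ∀ i, E i - eL i ∈ taylor) {T : Fin 3 → VV}
    (h : Adm0 E T u v w x y z) (h0 : T 0 0 = 0) : ∀ i j, T i j = 0 := by
  obtain ⟨N0, h0'⟩ := exists_ord (T 0)
  obtain ⟨N1, h1'⟩ := exists_ord (T 1)
  obtain ⟨N2, h2'⟩ := exists_ord (T 2)
  have base : ∀ i, Ord (-((N0 + N1 + N2 : ℕ) : ℤ)) (T i) := by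
    intro i
    fin_cases i
    · exact h0'.mono (by push_cast; omega)
    · exact h1'.mono (by push_cast; omega)
    · exact h2'.mono (by push_cast; omega)
  have all : ∀ n : ℕ, ∀ i, Ord (-((N0 + N1 + N2 : ℕ) : ℤ) + n) (T i) := by
    intro n
    induction n with
    | zero => simpa using base
    | succ n ih =>
      have := step hl h h0 ih
      intro i
      have h2 := this i
      push_cast at h2 ⊢
      rwa [← add_assoc]
  intro i j
  ext k
  have := all (k + (N0 + N1 + N2 : ℕ) + 1).toNat i k (by omega)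
  exact congrFun this j

end

/-- invertible scalar series -/
lemma exists_tau {f g : KK} (hf : ∀ k < (-1 : ℤ), f.coeff k = 0) (hf1 : f.coeff (-1) = 1)
    (hg : ∀ k < (-1 : ℤ), g.coeff k = 0) (hg1 : g.coeff (-1) = 1) :
    ∃ τ : PowerSeries ℂ, PowerSeries.constantCoeff τ = 1 ∧ f = (τ : KK) * g := by
  have h1 : IsTaylor (HahnSeries.single 1 (1 : ℂ) * f) := by
    intro k hk
    rw [single_mul_coeff, one_mul]
    exact hf _ (by omega)
  have h2 : IsTaylor (HahnSeries.single 1 (1 : ℂ) * g) := by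
    intro k hk
    rw [single_mul_coeff, one_mul]
    exact hg _ (by omega)
  obtain ⟨P, hP⟩ := exists_ps h1
  obtain ⟨Q, hQ⟩ := exists_ps h2
  have hP0 : PowerSeries.constantCoeff P = 1 := by
    have := ps_coeff P 0
    rw [hP, single_mul_coeff, one_mul] at this
    rw [← PowerSeries.coeff_zero_eq_constantCoeff_apply, ← this]
    simpa using hf1
  have hQ0 : PowerSeries.constantCoeff Q = 1 := by
    have := ps_coeff Q 0
    rw [hQ, single_mul_coeff, one_mul] at this
    rw [← PowerSeries.coeff_zero_eq_constantCoeff_apply, ← this]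
    simpa using hg1
  have hQQ : Q * Q⁻¹ = 1 := PowerSeries.mul_inv_cancel Q (by rw [hQ0]; exact one_ne_zero)
  refine ⟨P * Q⁻¹, ?_, ?_⟩
  · rw [map_mul, PowerSeries.constantCoeff_inv, hP0, hQ0]
    simp
  · have h3 : (P * Q⁻¹) * Q = P := by
      rw [mul_assoc, mul_comm Q⁻¹ Q, hQQ, mul_one]
    have h4 : ((P * Q⁻¹ : PowerSeries ℂ) : KK) * (Q : KK) = (P : KK) := by
      rw [← PowerSeries.coe_mul, h3]
    rw [hP, hQ] at h4
    have h5 : (HahnSeries.single (1 : ℤ) (1 : ℂ)) ≠ (0 : KK) := by
      simp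
    have h6 : HahnSeries.single (1 : ℤ) (1 : ℂ) * (((P * Q⁻¹ : PowerSeries ℂ) : KK) * g)
        = HahnSeries.single (1 : ℤ) (1 : ℂ) * f := by
      rw [← h4]; ring
    exact (mul_left_cancel₀ h5 h6).symm

section
variable {U : Submodule ℂ VV} (hU : Factoring U) {E : Fin 3 → VV} (hE : Gens U E)
include hU hE

/-- **Main theorem.** -/
theorem main {u v w x y z : ℂ} {B D : Matrix (Fin 3) (Fin 3) ℂ} (hC : Cubic E u v w x y z B D) :
    ∃ R₀ : Fin 3 → VV, (∀ i, R₀ i ∈ perp U 1) ∧ Admissible E R₀ u v w x y z ∧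
      (∀ R, Admissible E R u v w x y z ↔
        ∃ τ : PowerSeries ℂ, PowerSeries.constantCoeff τ = 1 ∧ R = mulT τ R₀) ∧
      ∀ τ : PowerSeries ℂ, PowerSeries.constantCoeff τ = 1 →
        gen U (mulT τ R₀) = perp U τ⁻¹ := by
  have hex := fun i => exists_R hU i
  choose R hR hRl using hex
  have hA := adm_of_cubic hU hE hC hR hRl
  have hmul : ∀ τ : PowerSeries ℂ, PowerSeries.constantCoeff τ = 1 →
      ∀ i, mulT τ R i - eL i ∈ taylor := by
    intro τ hτ i
    have e : mulT τ R i - eL i = (fun j => ((τ : KK) - 1) * R i j) + (R i - eL i) := by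
      funext j
      simp only [mulT, Pi.sub_apply, Pi.add_apply]
      ring
    rw [e]
    refine taylor.add_mem ?_ (hRl i)
    intro j k hk
    refine coeff_mul_lt (p := 1) (q := -1) ?_ ((lead_ord (hRl i)).comp j) (by omega)
    intro l hl
    rw [HahnSeries.coeff_sub]
    rcases lt_or_ge l 0 with h | h
    · rw [ps_taylor τ l h, ← PowerSeries.coe_one, ps_taylor 1 l h, sub_zero]
    · have : l = 0 := by omega
      subst this
      have h1 := ps_coeff τ 0
      have h2 := ps_coeff 1 0
      rw [PowerSeries.coe_one] at h2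
      simp only [Nat.cast_zero] at h1 h2
      rw [h1, h2, PowerSeries.coeff_zero_eq_constantCoeff_apply,
        PowerSeries.coeff_zero_eq_constantCoeff_apply, hτ, map_one, sub_self]
  have hadm : ∀ τ : PowerSeries ℂ, Adm0 E (mulT τ R) u v w x y z := by
    intro τ
    have h0 : Adm0 E (fun i j => R i j - 1 * R i j) u v w x y z := hA.sub_mul hA 1
    have h1 := h0.sub_mul hA (-(τ : KK))
    have e : (fun i j => (R i j - 1 * R i j) - -(τ : KK) * R i j) = mulT τ R := by
      funext i j
      simp only [mulT]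
      ring
    rwa [e] at h1
  refine ⟨R, hR, ⟨hRl, hA⟩, ?_, ?_⟩
  · intro R'
    constructor
    · rintro ⟨hl', hA'⟩
      obtain ⟨τ, hτ, h1⟩ := exists_tau ((lead_ord (hl' 0)).comp 0)
        (by have := congrFun (lead_cf (hl' 0)) 0; simpa [ee] using this)
        ((lead_ord (hRl 0)).comp 0)
        (by have := congrFun (lead_cf (hRl 0)) 0; simpa [ee] using this)
      refine ⟨τ, hτ, ?_⟩
      have h2 := eq_zero_of_adm hE.lead (hA'.sub_mul hA τ) (by
        show R' 0 0 - (τ : KK) * R 0 0 = 0
        rw [h1, sub_self])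
      funext i j
      exact sub_eq_zero.mp (h2 i j)
    · rintro ⟨τ, hτ, rfl⟩
      exact ⟨hmul τ hτ, hadm τ⟩
  · intro τ hτ
    have hinv : τ⁻¹ * τ = 1 := PowerSeries.inv_mul_cancel τ (by rw [hτ]; exact one_ne_zero)
    refine gen_eq_perp hU hE ?_ ?_ (hmul τ hτ)
    · intro h0
      rw [h0, zero_mul] at hinv
      exact zero_ne_one hinv
    · intro i Y hY
      have h1 := hR i Y hY
      unfold pair at h1 ⊢
      rw [PowerSeries.coe_one, one_mul] at h1
      have e : ((τ⁻¹ : PowerSeries ℂ) : KK) * dot (mulT τ R i) Y = dot (R i) Y := by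
        have h2 : ((τ⁻¹ : PowerSeries ℂ) : KK) * (τ : KK) = 1 := by
          rw [← PowerSeries.coe_mul, hinv, PowerSeries.coe_one]
        simp only [dot, mulT]
        linear_combination (R i 0 * Y 0 + R i 1 * Y 1 + R i 2 * Y 2) * h2
      rw [e]
      exact h1

end

end Q8.SM
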